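import Pool.Agent.QMark.Mark

/-!
# Alternations and 2-faces which are not 4-gons

`P = Poly u b` is a simple 4-polytope, `η i` is the (projective) height of the facet `i` on a line through an
interior point of `P`.  An edge of `P` (a triple of facets) is alternating if the two further facets at
its ends are on different sides of the middle facet of the triple.
-/

set_option autoImplicit false

namespace KAL

open Finset QMark
open scoped InnerProductSpace

variable {ι : Type*} [Fintype ι] [DecidableEq ι] {u : ι → E4} {b : ι → ℝ} {η : ι → ℝ}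

/-- `η` is the order in which the line `p + t d` through the interior point `p` meets the facets:
`η i = 1 / t` for the parameter `t` of the intersection. -/
structure Hts (u : ι → E4) (b : ι → ℝ) (η : ι → ℝ) : Prop where
  inj : Function.Injective η
  line : ∃ p d : E4, (∀ i, ⟪u i, p⟫_ℝ < b i) ∧ ∀ i, ⟪u i, d⟫_ℝ = η i * (b i - ⟪u i, p⟫_ℝ)

omit [Fintype ι] [DecidableEq ι] in
theorem Hts.neg (hη : Hts u b η) : Hts u b (fun i => -η i) := by
  obtain ⟨p, d, hp, hd⟩ := hη.line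
  refine ⟨fun i j hij => hη.inj (neg_injective hij), p, -d, hp, fun i => ?_⟩
  rw [inner_neg_right, hd i]
  ring

open Classical in
/-- The alternating triples. -/
noncomputable def alt (u : ι → E4) (b : ι → ℝ) (η : ι → ℝ) : Finset (Finset ι) :=
  univ.filter fun y => ∃ x c z, y = {x, c, z} ∧ η x < η c ∧ η c < η z ∧
    ∃ v v', v ∉ y ∧ v' ∉ y ∧ insert v y ∈ tets u b ∧ insert v' y ∈ tets u b ∧
      η v < η c ∧ η c < η v'

theorem mem_alt {y : Finset ι} : y ∈ alt u b η ↔ ∃ x c z, y = {x, c, z} ∧ η x < η c ∧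
    η c < η z ∧ ∃ v v', v ∉ y ∧ v' ∉ y ∧ insert v y ∈ tets u b ∧ insert v' y ∈ tets u b ∧
      η v < η c ∧ η c < η v' := by
  classical
  simp [alt]

theorem alt_neg : alt u b (fun i => -η i) = alt u b η := by
  have key : ∀ η : ι → ℝ, alt u b (fun i => -η i) ⊆ alt u b η := by
    intro η y hy
    rw [mem_alt] at hy ⊢
    obtain ⟨x, c, z, rfl, h1, h2, v, v', hv, hv', ht, ht', h3, h4⟩ := hy
    refine ⟨z, c, x, ?_, by linarith, by linarith, v', v, hv', hv, ht', ht, by linarith,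
      by linarith⟩
    ext i
    simp only [mem_insert, mem_singleton]
    tauto
  apply Subset.antisymm (key η)
  have h := key (fun i => -η i)
  simp only [neg_neg] at h
  exact h

/-- The elements `z` such that `{x, y, z}` is an edge of `P`. -/
noncomputable def lk (u : ι → E4) (b : ι → ℝ) (s : Finset ι) : Finset ι :=
  univ.filter fun z => z ∉ s ∧ ∃ t ∈ tets u b, s ⊆ t ∧ z ∈ t

theorem mem_lk {s : Finset ι} {z : ι} : z ∈ lk u b s ↔ z ∉ s ∧ ∃ t ∈ tets u b, s ⊆ t ∧ z ∈ t := by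
  classical
  simp [lk]

/-- **Connectedness of a polygon.** -/
theorem conn (h : SP u b) {s : Finset ι} (hs : s.card = 2) {Z : Finset ι} (hZs : Z ⊆ lk u b s)
    (hZn : Z.Nonempty)
    (hcl : ∀ t ∈ tets u b, s ⊆ t → ∀ z ∈ t, z ∈ Z → ∀ z' ∈ t, z' ∉ s → z' ∈ Z) :
    Z = lk u b s := by
  classical
  by_contra hne
  obtain ⟨z1, hz1, hz1'⟩ : ∃ z ∈ lk u b s, z ∉ Z := by
    by_contra hcon
    push Not at hcon
    exact hne (Subset.antisymm hZs hcon)
  obtain ⟨g⟩ := exists_gen h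
  have hpt : ∀ t ∈ tets u b, ∃ p ∈ Poly u b, act u b p = t := fun t ht => (mem_tets.mp ht).2
  choose! pt hpt1 hpt2 using hpt
  -- a local minimum in a closed class
  have key : ∀ 𝒯 : Finset (Finset ι), 𝒯.Nonempty → 𝒯 ⊆ tets u b → (∀ t ∈ 𝒯, s ⊆ t) →
      (∀ t ∈ 𝒯, ∀ d ∈ t, d ∉ s → ∀ d', insert d' (t.erase d) ∈ tets u b →
        insert d' (t.erase d) ∈ 𝒯) → ∃ t ∈ 𝒯, t \ s ⊆ g.U t := by
    intro 𝒯 hn hsub hsT hflip
    obtain ⟨t, ht, hmin⟩ := exists_min_image 𝒯 (fun t => ⟪g.w, pt t⟫_ℝ) hn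
    refine ⟨t, ht, ?_⟩
    intro d hd
    rw [mem_sdiff] at hd
    rw [Gen.mem_U]
    refine ⟨hd.1, ?_⟩
    by_contra hcon
    have htt := hsub ht
    obtain ⟨d', hd', hT, -⟩ := tet_flip h htt hd.1
    have hle := hmin _ (hflip t ht d hd.1 hd.2 d' hT)
    have hpos : 0 < g.c t d := lt_of_le_of_ne (not_lt.mp hcon) (g.hc t htt d hd.1).symm
    have hphi := g.phi htt (hpt2 t htt) (pt (insert d' (t.erase d)))
    rw [← add_sum_erase t _ hd.1, sum_eq_zero, add_zero] at hphi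
    · have h1 := hpt1 _ hT d
      have h2 : ⟪u d, pt (insert d' (t.erase d))⟫_ℝ ≠ b d := by
        intro hc
        have h3 : d ∈ act u b (pt (insert d' (t.erase d))) := mem_act.mpr hc
        rw [hpt2 _ hT, mem_insert] at h3
        rcases h3 with h3 | h3
        · exact hd' (h3 ▸ hd.1)
        · exact notMem_erase _ _ h3
      have h3 : ⟪u d, pt (insert d' (t.erase d))⟫_ℝ < b d := lt_of_le_of_ne h1 h2
      have h4 : g.c t d * (⟪u d, pt (insert d' (t.erase d))⟫_ℝ - b d) < 0 :=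
        mul_neg_of_pos_of_neg hpos (by linarith)
      linarith
    · intro i hi
      have h3 : i ∈ act u b (pt (insert d' (t.erase d))) := by
        rw [hpt2 _ hT]
        exact mem_insert_of_mem hi
      rw [mem_act.mp h3, sub_self, mul_zero]
  -- every vertex of the polygon has two further elements
  have hrest : ∀ t ∈ tets u b, s ⊆ t → ∀ d ∈ t, d ∉ s → ∃ e ∈ t, e ∉ s ∧ e ≠ d := by
    intro t ht hst d hd hds
    have hc := (mem_tets.mp ht).1
    have h2 : (t \ s).card = 2 := by rw [card_sdiff_of_subset hst, hc, hs]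
    obtain ⟨e, he, hed⟩ := exists_mem_ne (show 1 < (t \ s).card by omega) d
    rw [mem_sdiff] at he
    exact ⟨e, he.1, he.2, hed⟩
  obtain ⟨z0, hz0⟩ := hZn
  obtain ⟨hz0s, t0, ht0, hst0, hzt0⟩ := mem_lk.mp (hZs hz0)
  obtain ⟨hz1s, t1, ht1, hst1, hzt1⟩ := mem_lk.mp hz1
  obtain ⟨a, ha, haU⟩ := key ((tets u b).filter fun t => s ⊆ t ∧ ∃ z ∈ t, z ∈ Z)
    ⟨t0, mem_filter.mpr ⟨ht0, hst0, z0, hzt0, hz0⟩⟩ (filter_subset _ _)
    (fun t ht => (mem_filter.mp ht).2.1) (by
      intro t ht d hd hds d' hT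
      rw [mem_filter] at ht ⊢
      obtain ⟨ht, hst, z, hz, hzZ⟩ := ht
      obtain ⟨e, he, hes, hed⟩ := hrest t ht hst d hd hds
      refine ⟨hT, fun i hi => mem_insert_of_mem (mem_erase.mpr ⟨?_, hst hi⟩), e, ?_, ?_⟩
      · rintro rfl
        exact hds hi
      · exact mem_insert_of_mem (mem_erase.mpr ⟨hed, he⟩)
      · exact hcl t ht hst z hz hzZ e he hes)
  obtain ⟨a', ha', haU'⟩ := key ((tets u b).filter fun t => s ⊆ t ∧ ∀ z ∈ t, z ∉ Z)
    ⟨t1, mem_filter.mpr ⟨ht1, hst1, fun z hz hzZ => hz1' (hcl t1 ht1 hst1 z hz hzZ z1 hzt1 hz1s)⟩⟩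
    (filter_subset _ _) (fun t ht => (mem_filter.mp ht).2.1) (by
      intro t ht d hd hds d' hT
      rw [mem_filter] at ht ⊢
      obtain ⟨ht, hst, hz⟩ := ht
      obtain ⟨e, he, hes, hed⟩ := hrest t ht hst d hd hds
      have hst' : s ⊆ insert d' (t.erase d) := fun i hi => mem_insert_of_mem
        (mem_erase.mpr ⟨by rintro rfl; exact hds hi, hst hi⟩)
      refine ⟨hT, hst', ?_⟩
      intro z hz' hzZ
      exact hz e he (hcl _ hT hst' z hz' hzZ e (mem_insert_of_mem (mem_erase.mpr ⟨hed, he⟩)) hes))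
  rw [mem_filter] at ha ha'
  have heq := g.uniq ha.1 ha'.1 ha.2.1 ha'.2.1 haU haU'
  obtain ⟨z, hz, hzZ⟩ := ha.2.2
  exact ha'.2.2 z (heq ▸ hz) hzZ

end KAL
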