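import Pool.Agent.KAL.Sd

/-!
# Pairs of the two highest vertices of the facets: statements

`SD V G u s q` are facet data in coordinates (`Pool/Agent/KAL/Sd.lean`): vertices `V` in `E × ℝ`, the second
coordinate is the height.
-/

set_option autoImplicit false

namespace KAL

open TPH KPH KPX

/-- **StmtMainS.** `KPX.StmtMain` for pairs `a = (facet g a, vertex c a)`: the vertex `c a` is the only vertex
of `g a` in its layer, there are two vertices of `g a` strictly below, and one vertex `y a` strictly above,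
such that every pair `(c a, y a)` occurs at most 56 times. -/
def StmtMainS : Prop := ∃ K : ℝ, 0 < K ∧ ∀ (ι κ : Type) (V : Finset (E × ℝ)) (G : Finset ι)
  (u : ι → E) (s q : ι → ℝ), SD V G u s q → ∀ (S : Finset κ) (g : κ → ι) (c y : κ → E × ℝ),
  (∀ a ∈ S, ∀ a' ∈ S, g a = g a' → c a = c a' → a = a') →
  (∀ a ∈ S, g a ∈ G ∧ u (g a) ≠ 0 ∧ c a ∈ V ∧
    Zr V (u (g a)) (s (g a)) (q (g a)) (c a).2 = {c a} ∧
    (∃ z ∈ sd V (-1) (c a), ∃ z' ∈ sd V (-1) (c a), z ≠ z' ∧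
      Tr.val (u (g a)) (s (g a)) z = q (g a) ∧ Tr.val (u (g a)) (s (g a)) z' = q (g a)) ∧
    y a ∈ sd V 1 (c a) ∧ Tr.val (u (g a)) (s (g a)) (y a) = q (g a)) →
  (∀ (v w : E × ℝ) (F : Finset κ), (∀ a ∈ F, a ∈ S ∧ c a = v ∧ y a = w) → F.card ≤ 56) →
  ∀ (m : ℕ) (J : Finset (ℝ × ℕ)) (cl : E × ℝ → ℝ × ℕ), 0 < m →
  (∀ v ∈ V, cl v ∈ J ∧ (cl v).1 = v.2) →
  (∀ (j : ℝ × ℕ) (F : Finset (E × ℝ)), (∀ v ∈ F, v ∈ V ∧ cl v = j) → F.card ≤ m) →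
  (S.card : ℝ) ≤ K * (J.card : ℝ) ^ 3 * (m : ℝ) ^ (3 / 2 : ℝ)

/-- **StmtPairsW.** The number of pairs `a = (facet g a, vertex c a)` such that `c a` is the only vertex of
`g a` in its layer, with at least two vertices of `g a` strictly below and at least two strictly above. -/
def StmtPairsW : Prop := ∃ K : ℝ, 0 < K ∧ ∀ (ι κ : Type) (V : Finset (E × ℝ)) (G : Finset ι)
  (u : ι → E) (s q : ι → ℝ), SD V G u s q → ∀ T : Finset ℝ, (∀ v ∈ V, v.2 ∈ T) →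
  ∀ (S : Finset κ) (g : κ → ι) (c : κ → E × ℝ),
  (∀ a ∈ S, ∀ a' ∈ S, g a = g a' → c a = c a' → a = a') →
  (∀ a ∈ S, g a ∈ G ∧ c a ∈ V ∧ Zr V (u (g a)) (s (g a)) (q (g a)) (c a).2 = {c a} ∧
    ∀ σ : ℝ, σ = 1 ∨ σ = -1 → ∃ z ∈ sd V σ (c a), ∃ z' ∈ sd V σ (c a), z ≠ z' ∧
      Tr.val (u (g a)) (s (g a)) z = q (g a) ∧ Tr.val (u (g a)) (s (g a)) z' = q (g a)) →
  (S.card : ℝ) ≤ K * (T.card : ℝ) ^ (3 / 2 : ℝ) * (V.card : ℝ) ^ (3 / 2 : ℝ)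

/-- `c`, `y` are the two vertices of some facet with the largest values of `ord`, `ord c < ord y`. -/
def IsTop (V : Finset (E × ℝ)) {ι : Type} (G : Finset ι) (u : ι → E) (s q : ι → ℝ) (ord : E × ℝ → ℝ)
    (c y : E × ℝ) : Prop :=
  c ∈ V ∧ y ∈ V ∧ ord c < ord y ∧ ∃ g ∈ G, Tr.val (u g) (s g) c = q g ∧ Tr.val (u g) (s g) y = q g ∧
    ∀ v ∈ V, Tr.val (u g) (s g) v = q g → v ≠ c → v ≠ y → ord v < ord c

/-- `c`, `y` are the two vertices of some facet with the smallest values of `ord`, `ord y < ord c`. -/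
def IsBot (V : Finset (E × ℝ)) {ι : Type} (G : Finset ι) (u : ι → E) (s q : ι → ℝ) (ord : E × ℝ → ℝ)
    (c y : E × ℝ) : Prop :=
  c ∈ V ∧ y ∈ V ∧ ord y < ord c ∧ ∃ g ∈ G, Tr.val (u g) (s g) c = q g ∧ Tr.val (u g) (s g) y = q g ∧
    ∀ v ∈ V, Tr.val (u g) (s g) v = q g → v ≠ c → v ≠ y → ord c < ord v

/-- **StmtTopW.** The number of the pairs of the two highest vertices of the facets. -/
def StmtTopW : Prop := ∃ K : ℝ, 0 < K ∧ ∀ (ι : Type) (V : Finset (E × ℝ)) (G : Finset ι) (u : ι → E)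
  (s q : ι → ℝ), SD V G u s q → ∀ T : Finset ℝ, (∀ v ∈ V, v.2 ∈ T) →
  ∀ ord : E × ℝ → ℝ, (∀ v ∈ V, ∀ v' ∈ V, v.2 < v'.2 → ord v < ord v') →
  ∀ P : Finset ((E × ℝ) × (E × ℝ)), (∀ p ∈ P, IsTop V G u s q ord p.1 p.2) →
  (P.card : ℝ) ≤ K * (T.card : ℝ) ^ (3 / 2 : ℝ) * (V.card : ℝ) ^ (3 / 2 : ℝ)

/-- **StmtBotW.** The number of the pairs of the two lowest vertices of the facets. -/
def StmtBotW : Prop := ∃ K : ℝ, 0 < K ∧ ∀ (ι : Type) (V : Finset (E × ℝ)) (G : Finset ι) (u : ι → E)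
  (s q : ι → ℝ), SD V G u s q → ∀ T : Finset ℝ, (∀ v ∈ V, v.2 ∈ T) →
  ∀ ord : E × ℝ → ℝ, (∀ v ∈ V, ∀ v' ∈ V, v.2 < v'.2 → ord v < ord v') →
  ∀ P : Finset ((E × ℝ) × (E × ℝ)), (∀ p ∈ P, IsBot V G u s q ord p.1 p.2) →
  (P.card : ℝ) ≤ K * (T.card : ℝ) ^ (3 / 2 : ℝ) * (V.card : ℝ) ^ (3 / 2 : ℝ)

end KAL
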