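import Pool.Agent.KAL.Top

/-!
# Top and bottom pairs bound the number of 2-faces which are not 4-gons
-/

set_option autoImplicit false

namespace KAL

open Finset QMark
open scoped InnerProductSpace

variable {ι : Type*} [Fintype ι] [DecidableEq ι] {u : ι → E4} {b : ι → ℝ} {η : ι → ℝ}

omit [Fintype ι] in
theorem sorted3 (hη : Function.Injective η) {L : Finset ι} (hL : L.card = 3) :
    ∃ z1 z2 z3, L = {z1, z2, z3} ∧ η z1 < η z2 ∧ η z2 < η z3 := by
  obtain ⟨a, b, c, hab, hac, hbc, rfl⟩ := card_eq_three.mp hL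
  have e1 : ({a, b, c} : Finset ι) = {a, c, b} := by ext i; simp only [mem_insert, mem_singleton]; tauto
  have e2 : ({a, b, c} : Finset ι) = {b, a, c} := by ext i; simp only [mem_insert, mem_singleton]; tauto
  have e3 : ({a, b, c} : Finset ι) = {b, c, a} := by ext i; simp only [mem_insert, mem_singleton]; tauto
  have e4 : ({a, b, c} : Finset ι) = {c, a, b} := by ext i; simp only [mem_insert, mem_singleton]; tauto
  have e5 : ({a, b, c} : Finset ι) = {c, b, a} := by ext i; simp only [mem_insert, mem_singleton]; tauto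
  rcases lt_or_gt_of_ne (fun e => hab (hη e)) with h1 | h1
  · rcases lt_or_gt_of_ne (fun e => hbc (hη e)) with h2 | h2
    · exact ⟨a, b, c, rfl, h1, h2⟩
    · rcases lt_or_gt_of_ne (fun e => hac (hη e)) with h3 | h3
      · exact ⟨a, c, b, e1, h3, h2⟩
      · exact ⟨c, a, b, e4, h3, h1⟩
  · rcases lt_or_gt_of_ne (fun e => hac (hη e)) with h2 | h2
    · exact ⟨b, a, c, e2, h1, h2⟩
    · rcases lt_or_gt_of_ne (fun e => hbc (hη e)) with h3 | h3
      · exact ⟨b, c, a, e3, h3, h2⟩
      · exact ⟨c, b, a, e5, h3, h1⟩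

/-- The bottom pairs. -/
noncomputable def bot (u : ι → E4) (b : ι → ℝ) (η : ι → ℝ) : Finset (Finset ι) :=
  top u b (fun i => -η i)

theorem mem_bot {s : Finset ι} : s ∈ bot u b η ↔ s ∈ faces u b 2 ∧ ∃ t ∈ tets u b, s ⊆ t ∧
    ∀ z ∈ t, z ∉ s → ∀ a ∈ s, η a < η z := by
  rw [bot, mem_top]
  simp only [neg_lt_neg_iff]

/-- Every vertex has a top pair and a bottom pair. -/
theorem exists_pairs (hη : Function.Injective η) {t : Finset ι} (ht : t ∈ tets u b) :
    ∃ s, s ⊆ t ∧ s ∈ top u b η ∧ t \ s ∈ bot u b η := by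
  classical
  have hc := (mem_tets.mp ht).1
  obtain ⟨a, ha, hamax⟩ := exists_max_image t η (card_pos.mp (by omega))
  obtain ⟨d, hd, hdmax⟩ := exists_max_image (t.erase a) η
    (card_pos.mp (by rw [card_erase_of_mem ha]; omega))
  have hda : d ≠ a := ne_of_mem_erase hd
  have hdt : d ∈ t := mem_of_mem_erase hd
  have hs2 : ({d, a} : Finset ι).card = 2 := card_pair hda
  have hst : ({d, a} : Finset ι) ⊆ t := by
    intro i hi
    rw [mem_insert, mem_singleton] at hi
    rcases hi with rfl | rfl
    · exact hdt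
    · exact ha
  have key : ∀ z ∈ t, z ∉ ({d, a} : Finset ι) → ∀ e ∈ ({d, a} : Finset ι), η z < η e := by
    intro z hz hzs e he
    rw [mem_insert, mem_singleton, not_or] at hzs
    rw [mem_insert, mem_singleton] at he
    rcases he with rfl | rfl
    · exact lt_of_le_of_ne (hdmax z (mem_erase.mpr ⟨hzs.2, hz⟩)) fun e => hzs.1 (hη e)
    · exact lt_of_le_of_ne (hamax z hz) fun e => hzs.2 (hη e)
  refine ⟨{d, a}, hst, mem_top.mpr ⟨mem_faces.mpr ⟨hs2, t, ht, hst⟩, t, ht, hst, key⟩,
    mem_bot.mpr ⟨mem_faces.mpr ⟨?_, t, ht, sdiff_subset⟩, t, ht, sdiff_subset, ?_⟩⟩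
  · rw [card_sdiff_of_subset hst, hc, hs2]
  · intro z hz hzs e he
    rw [mem_sdiff] at he
    rw [mem_sdiff, not_and_not_right] at hzs
    exact key e he.1 he.2 z (hzs hz)

/-- The middle of a triangle which is neither a top pair nor a bottom pair. -/
theorem tri_data (h : SP u b) (hη : Function.Injective η) {x : Finset ι} (hx : x ∈ faces u b 2)
    (hx3 : size u b x = 3) (hxt : x ∉ top u b η) (hxb : x ∉ bot u b η) :
    ∃ x1 c x2, x = {x1, x2} ∧ η x1 < η c ∧ η c < η x2 ∧ ({x1, c, x2} : Finset ι) ∈ faces u b 3 ∧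
      ({c, x2} : Finset ι) ∈ top u b η ∧ ({x1, c} : Finset ι) ∈ bot u b η := by
  classical
  have hx2 := (mem_faces.mp hx).1
  set 𝒯 := (tets u b).filter fun t => x ⊆ t with h𝒯
  have h𝒯3 : 𝒯.card = 3 := hx3
  have h𝒯m : ∀ t, t ∈ 𝒯 ↔ t ∈ tets u b ∧ x ⊆ t := fun t => by rw [h𝒯, mem_filter]
  have hsd : ∀ t ∈ 𝒯, (t \ x).card = 2 := by
    intro t ht
    rw [h𝒯m] at ht
    rw [card_sdiff_of_subset ht.2, (mem_tets.mp ht.1).1, hx2]
  have hL3 : (lk u b x).card = 3 := by
    have h1 := sum_card_bipartiteAbove_eq_sum_card_bipartiteBelow (s := 𝒯) (t := lk u b x)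
      (fun (t : Finset ι) (z : ι) => z ∈ t)
    have h2 : ∀ t ∈ 𝒯, ((lk u b x).bipartiteAbove (fun (t : Finset ι) (z : ι) => z ∈ t) t).card
        = 2 := by
      intro t ht
      rw [← hsd t ht]
      congr 1
      have ht' := (h𝒯m t).mp ht
      ext z
      rw [mem_bipartiteAbove, mem_sdiff, mem_lk]
      constructor
      · rintro ⟨⟨h4, -⟩, h5⟩
        exact ⟨h5, h4⟩
      · rintro ⟨h5, h4⟩
        exact ⟨⟨h4, t, ht'.1, ht'.2, h5⟩, h5⟩
    have h3 : ∀ z ∈ lk u b x, (𝒯.bipartiteBelow (fun (t : Finset ι) (z : ι) => z ∈ t) z).card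
        = 2 := by
      intro z hz
      obtain ⟨hzx, t, ht, hxt, hzt⟩ := mem_lk.mp hz
      have hy3 : (insert z x).card = 3 := by rw [card_insert_of_notMem hzx, hx2]
      rw [← card_three h hy3 ht (insert_subset hzt hxt)]
      congr 1
      ext s
      rw [mem_bipartiteBelow, h𝒯m, mem_filter, insert_subset_iff]
      tauto
    rw [sum_congr rfl h2, sum_congr rfl h3, sum_const, sum_const, smul_eq_mul, smul_eq_mul,
      h𝒯3] at h1
    omega
  have himg : 𝒯.image (fun t => t \ x) = (lk u b x).powersetCard 2 := by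
    apply eq_of_subset_of_card_le
    · intro e he
      obtain ⟨t, ht, rfl⟩ := mem_image.mp he
      rw [mem_powersetCard]
      refine ⟨?_, hsd t ht⟩
      intro z hz
      rw [mem_sdiff] at hz
      have ht' := (h𝒯m t).mp ht
      exact lk_of ht'.1 ht'.2 hz.1 hz.2
    · rw [card_powersetCard, hL3, card_image_of_injOn, h𝒯3]
      · decide
      · intro t ht t' ht' he
        rw [mem_coe, h𝒯m] at ht ht'
        have he' : t \ x = t' \ x := he
        rw [← sdiff_union_of_subset ht.2, ← sdiff_union_of_subset ht'.2, he']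
  have hpair : ∀ z ∈ lk u b x, ∀ z' ∈ lk u b x, z ≠ z' → ∃ t ∈ tets u b, x ⊆ t ∧
      t \ x = {z, z'} := by
    intro z hz z' hz' hne
    have h1 : ({z, z'} : Finset ι) ∈ 𝒯.image (fun t => t \ x) := by
      rw [himg, mem_powersetCard]
      refine ⟨?_, card_pair hne⟩
      intro i hi
      rw [mem_insert, mem_singleton] at hi
      rcases hi with rfl | rfl
      · exact hz
      · exact hz'
    obtain ⟨t, ht, he⟩ := mem_image.mp h1
    exact ⟨t, ((h𝒯m t).mp ht).1, ((h𝒯m t).mp ht).2, he⟩
  obtain ⟨z1, z2, z3, hLe, h12, h23⟩ := sorted3 hη hL3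
  have hz1 : z1 ∈ lk u b x := by rw [hLe]; simp
  have hz2 : z2 ∈ lk u b x := by rw [hLe]; simp
  have hz3 : z3 ∈ lk u b x := by rw [hLe]; simp
  obtain ⟨x1, x2, rfl, hx12⟩ := exists_sorted hη hx2
  obtain ⟨t, ht, hxt', hte⟩ := hpair z1 hz1 z2 hz2 (fun e => h12.ne (by rw [e]))
  obtain ⟨t', ht', hxt'', hte'⟩ := hpair z2 hz2 z3 hz3 (fun e => h23.ne (by rw [e]))
  have hmt : ∀ i, i ∈ t ↔ i = x1 ∨ i = x2 ∨ i = z1 ∨ i = z2 := by
    intro i
    rw [← sdiff_union_of_subset hxt', hte]
    simp only [mem_union, mem_insert, mem_singleton]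
    tauto
  have hmt' : ∀ i, i ∈ t' ↔ i = x1 ∨ i = x2 ∨ i = z2 ∨ i = z3 := by
    intro i
    rw [← sdiff_union_of_subset hxt'', hte']
    simp only [mem_union, mem_insert, mem_singleton]
    tauto
  have hz2x := (mem_lk.mp hz2).1
  rw [mem_insert, mem_singleton, not_or] at hz2x
  have ha : η x1 < η z2 := by
    by_contra hcon
    apply hxt
    refine mem_top.mpr ⟨hx, t, ht, hxt', ?_⟩
    intro z hz hzx a haa
    rw [mem_insert, mem_singleton, not_or] at hzx
    have h1 : η z2 < η x1 := lt_of_le_of_ne (not_lt.mp hcon) fun e => hz2x.1 (hη e)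
    have h2 : η z ≤ η z2 := by
      rcases (hmt z).mp hz with e | e | e | e
      · exact absurd e hzx.1
      · exact absurd e hzx.2
      · rw [e]; exact h12.le
      · rw [e]
    rw [mem_insert, mem_singleton] at haa
    rcases haa with rfl | rfl
    · linarith
    · linarith
  have hb : η z2 < η x2 := by
    by_contra hcon
    apply hxb
    refine mem_bot.mpr ⟨hx, t', ht', hxt'', ?_⟩
    intro z hz hzx a haa
    rw [mem_insert, mem_singleton, not_or] at hzx
    have h1 : η x2 < η z2 := lt_of_le_of_ne (not_lt.mp hcon) fun e => hz2x.2 (hη e).symm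
    have h2 : η z2 ≤ η z := by
      rcases (hmt' z).mp hz with e | e | e | e
      · exact absurd e hzx.1
      · exact absurd e hzx.2
      · rw [e]
      · rw [e]; exact h23.le
    rw [mem_insert, mem_singleton] at haa
    rcases haa with rfl | rfl
    · linarith
    · linarith
  have hz2t : z2 ∈ t := (hmt z2).mpr (by tauto)
  have hz2t' : z2 ∈ t' := (hmt' z2).mpr (by tauto)
  have hx1t : x1 ∈ t := (hmt x1).mpr (by tauto)
  have hx2t : x2 ∈ t := (hmt x2).mpr (by tauto)
  have hx1t' : x1 ∈ t' := (hmt' x1).mpr (by tauto)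
  have hn1 : x1 ≠ z2 := fun e => ha.ne (by rw [e])
  have hn2 : z2 ≠ x2 := fun e => hb.ne (by rw [e])
  have hn3 : x1 ≠ x2 := fun e => hx12.ne (by rw [e])
  refine ⟨x1, z2, x2, rfl, ha, hb, ?_, ?_, ?_⟩
  · refine mem_faces.mpr ⟨?_, t, ht, ?_⟩
    · rw [card_eq_three]
      exact ⟨x1, z2, x2, hn1, hn3, hn2, rfl⟩
    · intro i hi
      simp only [mem_insert, mem_singleton] at hi
      rcases hi with rfl | rfl | rfl
      · exact hx1t
      · exact hz2t
      · exact hx2t
  · have hsub : ({z2, x2} : Finset ι) ⊆ t := by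
      intro i hi
      rw [mem_insert, mem_singleton] at hi
      rcases hi with rfl | rfl
      · exact hz2t
      · exact hx2t
    refine mem_top.mpr ⟨mem_faces.mpr ⟨card_pair hn2, t, ht, hsub⟩, t, ht, hsub, ?_⟩
    intro z hz hzs a haa
    rw [mem_insert, mem_singleton, not_or] at hzs
    have h2 : η z < η z2 := by
      rcases (hmt z).mp hz with e | e | e | e
      · rw [e]; exact ha
      · exact absurd e hzs.2
      · rw [e]; exact h12
      · exact absurd e hzs.1
    rw [mem_insert, mem_singleton] at haa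
    rcases haa with rfl | rfl
    · exact h2
    · linarith
  · have hsub : ({x1, z2} : Finset ι) ⊆ t' := by
      intro i hi
      rw [mem_insert, mem_singleton] at hi
      rcases hi with rfl | rfl
      · exact hx1t'
      · exact hz2t'
    refine mem_bot.mpr ⟨mem_faces.mpr ⟨card_pair hn1, t', ht', hsub⟩, t', ht', hsub, ?_⟩
    intro z hz hzs a haa
    rw [mem_insert, mem_singleton, not_or] at hzs
    have h2 : η z2 < η z := by
      rcases (hmt' z).mp hz with e | e | e | e
      · exact absurd e hzs.1
      · rw [e]; exact hb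
      · exact absurd e hzs.2
      · rw [e]; exact h23
    rw [mem_insert, mem_singleton] at haa
    rcases haa with rfl | rfl
    · linarith
    · exact h2

/-- The triangles which are neither top nor bottom pairs. -/
theorem tri_card (h : SP u b) (hη : Function.Injective η) :
    2 * ((faces u b 2 \ (top u b η ∪ bot u b η)).filter fun x => size u b x = 3).card ≤
      9 * ((top u b η).card + (bot u b η).card) := by
  classical
  set T3 := (faces u b 2 \ (top u b η ∪ bot u b η)).filter fun x => size u b x = 3 with hT3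
  have hdat : ∀ x ∈ T3, ∃ x1 c x2, x = {x1, x2} ∧ η x1 < η c ∧ η c < η x2 ∧
      ({x1, c, x2} : Finset ι) ∈ faces u b 3 ∧
      ({c, x2} : Finset ι) ∈ top u b η ∧ ({x1, c} : Finset ι) ∈ bot u b η := by
    intro x hx
    rw [hT3, mem_filter, mem_sdiff, mem_union, not_or] at hx
    exact tri_data h hη hx.1.1 hx.2 hx.1.2.1 hx.1.2.2
  rcases T3.eq_empty_or_nonempty with hemp | ⟨x0, hx0⟩
  · rw [hemp, card_empty]
    omega
  obtain ⟨i0, -⟩ := hdat x0 hx0
  haveI : Nonempty ι := ⟨i0⟩
  choose! f1 f2 f3 hf using hdat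
  set M : ι → Finset ι := fun c => univ.filter fun a =>
    (η c < η a ∧ ({c, a} : Finset ι) ∈ top u b η) ∨ (η a < η c ∧ ({a, c} : Finset ι) ∈ bot u b η)
    with hM
  have h1 : T3.card ≤ ∑ c : ι, ((faces u b 3).filter fun y => c ∈ y ∧ y ⊆ insert c (M c)).card := by
    rw [← card_sigma]
    apply card_le_card_of_injOn
      (fun x => (⟨f2 x, {f1 x, f2 x, f3 x}⟩ : Sigma fun _ : ι => Finset ι))
    · intro x hx
      rw [mem_coe] at hx
      obtain ⟨e0, e1, e2, e3, e4, e5⟩ := hf x hx
      rw [mem_coe, mem_sigma, mem_filter]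
      refine ⟨mem_univ _, e3, by simp, ?_⟩
      intro i hi
      simp only [mem_insert, mem_singleton] at hi
      rw [mem_insert, hM]
      simp only [mem_filter, mem_univ, true_and]
      rcases hi with rfl | rfl | rfl
      · right; right; exact ⟨e1, e5⟩
      · left; rfl
      · right; left; exact ⟨e2, e4⟩
    · intro x hx x' hx' he
      rw [mem_coe] at hx hx'
      obtain ⟨e0, e1, e2, -⟩ := hf x hx
      obtain ⟨e0', e1', e2', -⟩ := hf x' hx'
      have he' : (⟨f2 x, {f1 x, f2 x, f3 x}⟩ : Sigma fun _ : ι => Finset ι) =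
        ⟨f2 x', {f1 x', f2 x', f3 x'}⟩ := he
      rw [Sigma.mk.injEq] at he'
      obtain ⟨g1, g2⟩ := he'
      have g2' : ({f1 x, f2 x, f3 x} : Finset ι) = {f1 x', f2 x', f3 x'} := eq_of_heq g2
      have k1 : ({f1 x, f2 x, f3 x} : Finset ι).erase (f2 x) = {f1 x, f3 x} := by
        ext i
        simp only [mem_erase, mem_insert, mem_singleton]
        constructor
        · tauto
        · rintro (rfl | rfl)
          · exact ⟨fun e => e1.ne (by rw [e]), by tauto⟩
          · exact ⟨fun e => e2.ne (by rw [e]), by tauto⟩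
      have k2 : ({f1 x', f2 x', f3 x'} : Finset ι).erase (f2 x') = {f1 x', f3 x'} := by
        ext i
        simp only [mem_erase, mem_insert, mem_singleton]
        constructor
        · tauto
        · rintro (rfl | rfl)
          · exact ⟨fun e => e1'.ne (by rw [e]), by tauto⟩
          · exact ⟨fun e => e2'.ne (by rw [e]), by tauto⟩
      rw [e0, e0', ← k1, ← k2, g2', g1]
  have h2 : 2 * T3.card ≤ 9 * ∑ c : ι, (M c).card := by
    calc 2 * T3.card ≤ 2 * ∑ c : ι, ((faces u b 3).filter fun y => c ∈ y ∧
          y ⊆ insert c (M c)).card := Nat.mul_le_mul_left _ h1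
      _ = ∑ c : ι, 2 * ((faces u b 3).filter fun y => c ∈ y ∧ y ⊆ insert c (M c)).card := by
          rw [mul_sum]
      _ ≤ ∑ c : ι, 9 * (M c).card := sum_le_sum fun c _ => link_bound' h c (M c)
      _ = 9 * ∑ c : ι, (M c).card := by rw [mul_sum]
  have h3 : ∑ c : ι, (M c).card ≤ (top u b η).card + (bot u b η).card := by
    have h4 : ∀ c, (M c).card ≤
        (univ.filter fun a => η c < η a ∧ ({c, a} : Finset ι) ∈ top u b η).card +
        (univ.filter fun a => η a < η c ∧ ({a, c} : Finset ι) ∈ bot u b η).card := by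
      intro c
      rw [hM]
      simp only
      rw [filter_or]
      exact card_union_le _ _
    refine (sum_le_sum fun c _ => h4 c).trans ?_
    rw [sum_add_distrib]
    apply Nat.add_le_add
    · rw [← card_sigma]
      apply card_le_card_of_injOn (fun q : Sigma fun _ : ι => ι => ({q.1, q.2} : Finset ι))
      · rintro ⟨c, a⟩ hq
        rw [mem_coe, mem_sigma, mem_filter] at hq
        exact hq.2.2.2
      · rintro ⟨c, a⟩ hq ⟨c', a'⟩ hq' he
        rw [mem_coe, mem_sigma, mem_filter] at hq hq'
        have he' : ({c, a} : Finset ι) = {c', a'} := he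
        have k1 : η c < η a := hq.2.2.1
        have k2 : η c' < η a' := hq'.2.2.1
        have m1 : c = c' ∨ c = a' := by
          have : c ∈ ({c', a'} : Finset ι) := by rw [← he']; simp
          simpa using this
        have m2 : a = c' ∨ a = a' := by
          have : a ∈ ({c', a'} : Finset ι) := by rw [← he']; simp
          simpa using this
        rcases m1 with rfl | rfl
        · rcases m2 with rfl | rfl
          · exact absurd k1 (lt_irrefl _)
          · rfl
        · rcases m2 with rfl | rfl
          · exact absurd k1 (by linarith)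
          · exact absurd k1 (lt_irrefl _)
    · rw [← card_sigma]
      apply card_le_card_of_injOn (fun q : Sigma fun _ : ι => ι => ({q.2, q.1} : Finset ι))
      · rintro ⟨c, a⟩ hq
        rw [mem_coe, mem_sigma, mem_filter] at hq
        exact hq.2.2.2
      · rintro ⟨c, a⟩ hq ⟨c', a'⟩ hq' he
        rw [mem_coe, mem_sigma, mem_filter] at hq hq'
        have he' : ({a, c} : Finset ι) = {a', c'} := he
        have k1 : η a < η c := hq.2.2.1
        have k2 : η a' < η c' := hq'.2.2.1
        have m1 : c = c' ∨ c = a' := by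
          have : c ∈ ({a', c'} : Finset ι) := by rw [← he']; simp
          simp only [mem_insert, mem_singleton] at this
          tauto
        have m2 : a = c' ∨ a = a' := by
          have : a ∈ ({a', c'} : Finset ι) := by rw [← he']; simp
          simp only [mem_insert, mem_singleton] at this
          tauto
        rcases m1 with rfl | rfl
        · rcases m2 with rfl | rfl
          · exact absurd k1 (lt_irrefl _)
          · rfl
        · rcases m2 with rfl | rfl
          · exact absurd k1 (by linarith)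
          · exact absurd k1 (lt_irrefl _)
  omega

/-- **Top and bottom pairs bound the number of 2-faces which are not 4-gons.** -/
theorem nonq_le (h : SP u b) (hη : Function.Injective η) :
    (nonq u b).card ≤ 4 * Fintype.card ι + 14 * ((top u b η).card + (bot u b η).card) := by
  classical
  set M := top u b η ∪ bot u b η with hMdef
  have hM : M ⊆ faces u b 2 := by
    intro s hs
    rw [hMdef, mem_union] at hs
    rcases hs with hs | hs
    · exact (mem_top.mp hs).1
    · exact (mem_bot.mp hs).1
  set F := faces u b 2 with hF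
  set G := F \ M with hG
  have hGM : G.card + M.card = F.card := card_sdiff_add_card_eq_card hM
  have h1 : ∑ x ∈ G, size u b x ≤ 4 * (tets u b).card := by
    rw [sum_size]
    have h2 : ∀ t ∈ tets u b, (G.filter fun x => x ⊆ t).card ≤ 4 := by
      intro t ht
      have h3 : (G.filter fun x => x ⊆ t).card + (M.filter fun x => x ⊆ t).card = 6 := by
        rw [← six ht, ← card_union_of_disjoint, ← filter_union, hG, sdiff_union_of_subset hM]
        rw [disjoint_left]
        intro x hx hx'
        exact (mem_sdiff.mp (mem_filter.mp hx).1).2 (mem_filter.mp hx').1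
      obtain ⟨s, hst, hs1, hs2⟩ := exists_pairs (u := u) (b := b) hη ht
      have h4 : ({s, t \ s} : Finset (Finset ι)) ⊆ M.filter fun x => x ⊆ t := by
        intro x hx
        rw [mem_insert, mem_singleton] at hx
        rw [mem_filter, hMdef, mem_union]
        rcases hx with rfl | rfl
        · exact ⟨Or.inl hs1, hst⟩
        · exact ⟨Or.inr hs2, sdiff_subset⟩
      have h5 : ({s, t \ s} : Finset (Finset ι)).card = 2 := by
        apply card_pair
        intro hcon
        have hc2 := (mem_faces.mp (mem_top.mp hs1).1).1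
        obtain ⟨i, hi⟩ := card_pos.mp (show 0 < s.card by omega)
        have hi' : i ∈ t \ s := hcon ▸ hi
        exact (mem_sdiff.mp hi').2 hi
      have h6 := card_le_card h4
      omega
    refine (sum_le_sum h2).trans ?_
    rw [sum_const, smul_eq_mul, mul_comm]
  have h2 := tri_card h hη
  rw [← hF, ← hMdef, ← hG] at h2
  have h3 : (G.filter fun x => size u b x ≠ 4).card + 4 * G.card ≤
      ∑ x ∈ G, size u b x + 2 * (G.filter fun x => size u b x = 3).card := by
    rw [card_filter, card_filter, mul_sum, ← sum_add_distrib]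
    have h4 : 4 * G.card = ∑ x ∈ G, 4 := by rw [sum_const, smul_eq_mul, mul_comm]
    rw [h4, ← sum_add_distrib]
    apply sum_le_sum
    intro x hx
    have h5 := three_le_size h (mem_sdiff.mp hx).1
    split_ifs <;> omega
  have h4 : (nonq u b).card ≤ (G.filter fun x => size u b x ≠ 4).card + M.card := by
    refine (card_le_card ?_).trans (card_union_le _ _)
    intro x hx
    rw [nonq, mem_filter] at hx
    rw [mem_union, mem_filter, hG, mem_sdiff]
    by_cases hxM : x ∈ M
    · exact Or.inr hxM
    · exact Or.inl ⟨⟨hx.1, hxM⟩, hx.2⟩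
  have h5 := f0_le h
  rw [← hF] at h5
  have h6 : M.card ≤ (top u b η).card + (bot u b η).card := card_union_le _ _
  omega

/-- **Alternations bound the number of 2-faces which are not 4-gons**, up to the constant the same
bound. -/
theorem nonq_le_alt (h : SP u b) (hη : Hts u b η) :
    (nonq u b).card ≤ 32 * Fintype.card ι + 14 * (alt u b η).card := by
  have h1 := nonq_le h hη.inj
  have h2 := top_card h hη
  have h3 := top_card h hη.neg
  rw [alt_neg] at h3
  change 2 * (bot u b η).card ≤ _ at h3
  omega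

end KAL
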