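import Pool.Agent.KAL.Ineq

/-!
# The pairs which are the two highest facets of a vertex
-/

set_option autoImplicit false

namespace KAL

open Finset QMark
open scoped InnerProductSpace

variable {ι : Type*} [Fintype ι] [DecidableEq ι] {u : ι → E4} {b : ι → ℝ} {η : ι → ℝ}

/-- **A closed pair is unique.**  If all edges of the 2-face `{c, y}` lie on lower facets, then `y` is the
only higher neighbour of `c`. -/
theorem closed_uniq (h : SP u b) (hη : Hts u b η) {c y y' : ι} (hcy : ({c, y} : Finset ι) ∈ faces u b 2)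
    (hcy' : ({c, y'} : Finset ι) ∈ faces u b 2) (hne : y ≠ y') (h1 : η c < η y) (h2 : η c < η y')
    (hcl : ∀ z ∈ lk u b {c, y}, η z < η c) : False := by
  classical
  obtain ⟨p, d, hp, hd⟩ := hη.line
  obtain ⟨-, t, ht, hst⟩ := mem_faces.mp hcy
  obtain ⟨-, t', ht', hst'⟩ := mem_faces.mp hcy'
  obtain ⟨g, hg, hga⟩ := exists_pt h ht hst
  obtain ⟨q, hq, hqa⟩ := exists_pt h ht' hst'
  have hcne : c ≠ y := by rintro rfl; exact lt_irrefl _ h1
  have hcne' : c ≠ y' := by rintro rfl; exact lt_irrefl _ h2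
  set σ : ι → ℝ := fun i => b i - ⟪u i, p⟫_ℝ with hσ
  have hσ0 : ∀ i, 0 < σ i := fun i => sub_pos.mpr (hp i)
  set τ : ℝ := (b y - ⟪u y, q⟫_ℝ) / ((η y - η c) * σ y) with hτ
  have hyq : y ∉ act u b q := by
    rw [hqa, mem_insert, mem_singleton]
    rintro (e | e)
    · exact hcne e.symm
    · exact hne e
  have hyq' : ⟪u y, q⟫_ℝ < b y := lt_of_le_of_ne (hq y) fun e => hyq (mem_act.mpr e)
  have hden : 0 < (η y - η c) * σ y := mul_pos (sub_pos.mpr h1) (hσ0 y)
  have hτ0 : 0 < τ := div_pos (by linarith) hden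
  have hτy : τ * ((η y - η c) * σ y) = b y - ⟪u y, q⟫_ℝ := div_mul_cancel₀ _ hden.ne'
  set D : E4 := (q - p) + τ • d - (1 + τ * η c) • (g - p) with hD
  have hDi : ∀ i, ⟪u i, D⟫_ℝ = -((b i - ⟪u i, q⟫_ℝ) - τ * (η i - η c) * σ i) +
      (1 + τ * η c) * (b i - ⟪u i, g⟫_ℝ) := by
    intro i
    rw [hD, inner_sub_right, inner_add_right, inner_sub_right, inner_smul_right, inner_smul_right,
      inner_sub_right, hd i]
    simp only [hσ]
    ring
  have hcg : ⟪u c, g⟫_ℝ = b c := mem_act.mp (by rw [hga]; exact mem_insert_self _ _)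
  have hyg : ⟪u y, g⟫_ℝ = b y := mem_act.mp (by rw [hga]; exact mem_insert_of_mem (mem_singleton_self _))
  have hcq : ⟪u c, q⟫_ℝ = b c := mem_act.mp (by rw [hqa]; exact mem_insert_self _ _)
  have hyq2 : ⟪u y', q⟫_ℝ = b y' := mem_act.mp (by rw [hqa]; exact mem_insert_of_mem (mem_singleton_self _))
  have hDc : ⟪u c, D⟫_ℝ = 0 := by rw [hDi, hcg, hcq]; ring
  have hDy : ⟪u y, D⟫_ℝ = 0 := by rw [hDi, hyg]; linarith
  -- the slack of a lower facet and of `y'`
  have hSz : ∀ z, η z < η c → 0 < (b z - ⟪u z, q⟫_ℝ) - τ * (η z - η c) * σ z := by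
    intro z hz
    have e1 := hq z
    have e2 : 0 < τ * (η c - η z) * σ z := mul_pos (mul_pos hτ0 (sub_pos.mpr hz)) (hσ0 z)
    have e3 : τ * (η z - η c) * σ z = -(τ * (η c - η z) * σ z) := by ring
    rw [e3]
    linarith
  have hSy : (b y' - ⟪u y', q⟫_ℝ) - τ * (η y' - η c) * σ y' < 0 := by
    rw [hyq2]
    have e2 : 0 < τ * (η y' - η c) * σ y' := mul_pos (mul_pos hτ0 (sub_pos.mpr h2)) (hσ0 y')
    linarith
  have hgi : ∀ i, i ∉ ({c, y} : Finset ι) → ⟪u i, g⟫_ℝ < b i := fun i hi =>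
    lt_of_le_of_ne (hg i) fun e => hi (by rw [← hga]; exact mem_act.mpr e)
  have hy'g := hgi y' (by
    rw [mem_insert, mem_singleton]
    rintro (e | e)
    · exact hcne' e.symm
    · exact hne e.symm)
  -- there is a neighbour
  obtain ⟨z0, hz0⟩ : ∃ z, z ∈ lk u b {c, y} := by
    have hc4 := (mem_tets.mp ht).1
    have e1 : (t \ {c, y}).card = 2 := by
      rw [card_sdiff_of_subset hst, hc4, card_pair hcne]
    obtain ⟨z, hz⟩ := card_pos.mp (show 0 < (t \ {c, y}).card by omega)
    rw [mem_sdiff] at hz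
    exact ⟨z, mem_lk.mpr ⟨hz.2, t, ht, hst, hz.1⟩⟩
  have hD0 : D ≠ 0 := by
    intro hD0
    have e1 := hDi z0
    have e2 := hDi y'
    rw [hD0, inner_zero_right] at e1 e2
    have e3 := hSz z0 (hcl z0 hz0)
    have e4 := hgi z0 (mem_lk.mp hz0).1
    have e5 : 0 < (1 + τ * η c) * (b z0 - ⟪u z0, g⟫_ℝ) := by linarith
    have e6 : 0 < 1 + τ * η c := (pos_iff_pos_of_mul_pos e5).mpr (by linarith)
    have e7 : 0 < (1 + τ * η c) * (b y' - ⟪u y', g⟫_ℝ) := mul_pos e6 (by linarith)
    linarith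
  obtain ⟨s, hs, hm, j, hj, hj'⟩ := move h hg hD0 (by
    intro i hi
    rw [hga, mem_insert, mem_singleton] at hi
    rcases hi with rfl | rfl
    · exact hDc.le
    · exact hDy.le)
  have hjl : j ∈ lk u b {c, y} := by
    obtain ⟨t1, ht1, hsub⟩ := exists_tet h hm
    refine mem_lk.mpr ⟨by rw [← hga]; exact hj, t1, ht1, ?_, hsub hj'⟩
    intro i hi
    apply hsub
    rw [mem_insert, mem_singleton] at hi
    rw [mem_act, inner_add_smul]
    rcases hi with rfl | rfl
    · rw [hDc, hcg]; ring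
    · rw [hDy, hyg]; ring
  have hjs := hSz j (hcl j hjl)
  have hjg := hgi j (mem_lk.mp hjl).1
  rw [mem_act, inner_add_smul, hDi] at hj'
  have hm' := hm y'
  rw [inner_add_smul, hDi] at hm'
  -- `1 - s (1 + τ η c)` is negative by `j` and positive by `y'`
  have e1 : (b j - ⟪u j, g⟫_ℝ) * (1 - s * (1 + τ * η c)) +
      s * ((b j - ⟪u j, q⟫_ℝ) - τ * (η j - η c) * σ j) = 0 := by linear_combination -hj'
  have e2 : 0 < s * ((b j - ⟪u j, q⟫_ℝ) - τ * (η j - η c) * σ j) := mul_pos hs hjs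
  have e3 : 1 - s * (1 + τ * η c) < 0 := by
    by_contra hcon
    have e4 : 0 ≤ (b j - ⟪u j, g⟫_ℝ) * (1 - s * (1 + τ * η c)) :=
      mul_nonneg (by linarith) (not_lt.mp hcon)
    linarith
  have e5 : (b y' - ⟪u y', g⟫_ℝ) * (1 - s * (1 + τ * η c)) < 0 :=
    mul_neg_of_pos_of_neg (by linarith) e3
  have e6 : s * ((b y' - ⟪u y', q⟫_ℝ) - τ * (η y' - η c) * σ y') < 0 :=
    mul_neg_of_pos_of_neg hs hSy
  nlinarith [hm', e5, e6]

/-- The pairs which are the two highest facets of some vertex. -/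
noncomputable def top (u : ι → E4) (b : ι → ℝ) (η : ι → ℝ) : Finset (Finset ι) :=
  (faces u b 2).filter fun s => ∃ t ∈ tets u b, s ⊆ t ∧ ∀ z ∈ t, z ∉ s → ∀ a ∈ s, η z < η a

theorem mem_top {s : Finset ι} : s ∈ top u b η ↔ s ∈ faces u b 2 ∧ ∃ t ∈ tets u b, s ⊆ t ∧
    ∀ z ∈ t, z ∉ s → ∀ a ∈ s, η z < η a := by
  classical
  simp [top]

/-- The pairs all whose edges lie on lower facets. -/
noncomputable def clo (u : ι → E4) (b : ι → ℝ) (η : ι → ℝ) : Finset (Finset ι) :=
  (faces u b 2).filter fun s => ∀ z ∈ lk u b s, ∀ a ∈ s, η z < η a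

theorem mem_clo {s : Finset ι} : s ∈ clo u b η ↔ s ∈ faces u b 2 ∧
    ∀ z ∈ lk u b s, ∀ a ∈ s, η z < η a := by
  classical
  simp [clo]

theorem exists_sorted (hη : Function.Injective η) {s : Finset ι} (hs : s.card = 2) :
    ∃ c y, s = {c, y} ∧ η c < η y := by
  obtain ⟨c, y, hne, rfl⟩ := card_eq_two.mp hs
  rcases lt_or_gt_of_ne (fun e => hne (hη e)) with h1 | h1
  · exact ⟨c, y, rfl, h1⟩
  · exact ⟨y, c, pair_comm _ _, h1⟩

theorem clo_card (h : SP u b) (hη : Hts u b η) : (clo u b η).card ≤ Fintype.card ι := by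
  classical
  rcases (clo u b η).eq_empty_or_nonempty with hemp | ⟨s0, hs0⟩
  · rw [hemp, card_empty]
    exact Nat.zero_le _
  obtain ⟨c0, -, -, -⟩ := exists_sorted hη.inj (mem_faces.mp (mem_clo.mp hs0).1).1
  haveI : Nonempty ι := ⟨c0⟩
  have hch : ∀ s ∈ clo u b η, ∃ c, ∃ y, s = {c, y} ∧ η c < η y := fun s hs =>
    exists_sorted hη.inj (mem_faces.mp (mem_clo.mp hs).1).1
  choose! f y hf using hch
  rw [← card_univ]
  apply card_le_card_of_injOn f (fun _ _ => mem_univ _)
  intro s hs s' hs' he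
  rw [mem_coe] at hs hs'
  by_contra hne
  obtain ⟨e1, e2⟩ := hf s hs
  obtain ⟨e1', e2'⟩ := hf s' hs'
  have hyy : y s ≠ y s' := by
    intro e
    apply hne
    rw [e1, e1', he, e]
  have m1 := (mem_clo.mp hs).1
  have m1' := (mem_clo.mp hs').1
  have m2 := (mem_clo.mp hs).2
  rw [e1] at m1 m2
  rw [e1'] at m1'
  rw [← he] at m1' e2'
  exact closed_uniq h hη m1 m1' hyy e2 e2' fun z hz => m2 z hz _ (mem_insert_self _ _)

/-- The further elements of a pair. -/
theorem lk_of {t s : Finset ι} {z : ι} (ht : t ∈ tets u b) (hst : s ⊆ t) (hz : z ∈ t)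
    (hzs : z ∉ s) : z ∈ lk u b s := mem_lk.mpr ⟨hzs, t, ht, hst, hz⟩

/-- Every top pair which is not closed has two alternating edges. -/
theorem two_alt (h : SP u b) (hη : Function.Injective η) {s : Finset ι} (hs : s ∈ top u b η)
    (hs' : s ∉ clo u b η) : ∃ A : Finset ι, 2 ≤ A.card ∧
      ∀ z ∈ A, z ∉ s ∧ (∀ a ∈ s, η z < η a) ∧ insert z s ∈ alt u b η := by
  classical
  obtain ⟨hsf, t0, ht0, hst0, hlow0⟩ := mem_top.mp hs
  have hs2 := (mem_faces.mp hsf).1
  obtain ⟨c, y, hscy, hcy⟩ := exists_sorted hη hs2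
  have hcs : c ∈ s := by rw [hscy]; exact mem_insert_self _ _
  -- low: below `c`
  have low : ∀ z, η z < η c → ∀ a ∈ s, η z < η a := by
    intro z hz a ha
    rw [hscy, mem_insert, mem_singleton] at ha
    rcases ha with rfl | rfl
    · exact hz
    · exact hz.trans hcy
  set S := (tets u b).filter fun t => s ⊆ t ∧ ∀ z ∈ t, z ∉ s → η z < η c with hS
  set Z := (lk u b s).filter fun z => ∃ t ∈ S, z ∈ t with hZ
  have hSm : ∀ t, t ∈ S ↔ t ∈ tets u b ∧ s ⊆ t ∧ ∀ z ∈ t, z ∉ s → η z < η c := by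
    intro t
    rw [hS, mem_filter]
  have hZm : ∀ z, z ∈ Z ↔ z ∉ s ∧ ∃ t ∈ S, z ∈ t := by
    intro z
    rw [hZ, mem_filter]
    constructor
    · rintro ⟨h1, h2⟩
      exact ⟨(mem_lk.mp h1).1, h2⟩
    · rintro ⟨h1, t, ht, hzt⟩
      have ht' := (hSm t).mp ht
      exact ⟨lk_of ht'.1 ht'.2.1 hzt h1, t, ht, hzt⟩
  have ht0S : t0 ∈ S := (hSm t0).mpr ⟨ht0, hst0, fun z hz hzs => hlow0 z hz hzs c hcs⟩
  -- the number of members of `S` over an element of `Z`
  have hdeg : ∀ z ∈ Z, (S.filter fun t => z ∈ t).card = 1 ∨ (S.filter fun t => z ∈ t).card = 2 := by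
    intro z hz
    obtain ⟨hzs, t, ht, hzt⟩ := (hZm z).mp hz
    have ht' := (hSm t).mp ht
    have hy3 : (insert z s).card = 3 := by rw [card_insert_of_notMem hzs, hs2]
    have h2 := card_three h hy3 ht'.1 (insert_subset hzt ht'.2.1)
    have h3 : (S.filter fun t => z ∈ t) ⊆ (tets u b).filter fun t => insert z s ⊆ t := by
      intro t1 ht1
      rw [mem_filter, hSm] at ht1
      exact mem_filter.mpr ⟨ht1.1.1, insert_subset ht1.2 ht1.1.2.1⟩
    have h4 := card_le_card h3
    have h5 : 0 < (S.filter fun t => z ∈ t).card := card_pos.mpr ⟨t, mem_filter.mpr ⟨ht, hzt⟩⟩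
    omega
  set A := Z.filter fun z => (S.filter fun t => z ∈ t).card = 1 with hA
  -- parity
  have hpar : ∑ z ∈ Z, (S.filter fun t => z ∈ t).card = 2 * S.card := by
    have h1 := sum_card_bipartiteAbove_eq_sum_card_bipartiteBelow (s := S) (t := Z)
      (fun (t : Finset ι) (z : ι) => z ∈ t)
    have h2 : ∀ t ∈ S, (Z.bipartiteAbove (fun (t : Finset ι) (z : ι) => z ∈ t) t).card = 2 := by
      intro t ht
      have ht' := (hSm t).mp ht
      have h3 : Z.bipartiteAbove (fun (t : Finset ι) (z : ι) => z ∈ t) t = t \ s := by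
        ext z
        rw [mem_bipartiteAbove, mem_sdiff, hZm]
        constructor
        · rintro ⟨⟨h4, -⟩, h5⟩
          exact ⟨h5, h4⟩
        · rintro ⟨h5, h4⟩
          exact ⟨⟨h4, t, ht, h5⟩, h5⟩
      rw [h3, card_sdiff_of_subset ht'.2.1, (mem_tets.mp ht'.1).1, hs2]
    rw [sum_congr rfl h2, sum_const, smul_eq_mul] at h1
    have h6 : ∑ z ∈ Z, (S.filter fun t => z ∈ t).card =
        ∑ z ∈ Z, (S.bipartiteBelow (fun (t : Finset ι) (z : ι) => z ∈ t) z).card := by
      apply sum_congr rfl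
      intro z _
      rfl
    rw [h6, ← h1]
    ring
  have hpar2 : ∑ z ∈ Z, (S.filter fun t => z ∈ t).card + A.card = 2 * Z.card := by
    rw [hA, card_filter, ← sum_add_distrib, mul_comm, ← smul_eq_mul, ← sum_const]
    apply sum_congr rfl
    intro z hz
    rcases hdeg z hz with h1 | h1 <;> rw [h1] <;> norm_num
  -- A is not empty
  have hAne : A.Nonempty := by
    rw [nonempty_iff_ne_empty]
    intro hemp
    apply hs'
    have hcl : ∀ t ∈ tets u b, s ⊆ t → ∀ z ∈ t, z ∈ Z → ∀ z' ∈ t, z' ∉ s → z' ∈ Z := by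
      intro t ht hst z hz hzZ z' hz' hzs'
      have h1 : (S.filter fun t => z ∈ t).card = 2 := by
        rcases hdeg z hzZ with h1 | h1
        · exfalso
          have h2 : z ∈ A := by rw [hA, mem_filter]; exact ⟨hzZ, h1⟩
          rw [hemp] at h2
          exact notMem_empty _ h2
        · exact h1
      obtain ⟨hzs, -⟩ := (hZm z).mp hzZ
      have hy3 : (insert z s).card = 3 := by rw [card_insert_of_notMem hzs, hs2]
      have h2 := card_three h hy3 ht (insert_subset hz hst)
      have h3 : (S.filter fun t => z ∈ t) ⊆ (tets u b).filter fun t => insert z s ⊆ t := by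
        intro t1 ht1
        rw [mem_filter, hSm] at ht1
        exact mem_filter.mpr ⟨ht1.1.1, insert_subset ht1.2 ht1.1.2.1⟩
      have h4 := eq_of_subset_of_card_le h3 (by rw [h1, h2])
      have h5 : t ∈ (S.filter fun t => z ∈ t) := by
        rw [h4]
        exact mem_filter.mpr ⟨ht, insert_subset hz hst⟩
      rw [mem_filter] at h5
      exact (hZm z').mpr ⟨hzs', t, h5.1, hz'⟩
    have hZn : Z.Nonempty := by
      have h1 : (t0 \ s).card = 2 := by
        rw [card_sdiff_of_subset hst0, (mem_tets.mp ht0).1, hs2]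
      obtain ⟨z, hz⟩ := card_pos.mp (show 0 < (t0 \ s).card by omega)
      rw [mem_sdiff] at hz
      exact ⟨z, (hZm z).mpr ⟨hz.2, t0, ht0S, hz.1⟩⟩
    have hZe := conn h hs2 (filter_subset _ _) hZn hcl
    refine mem_clo.mpr ⟨hsf, ?_⟩
    intro z hz
    rw [← hZe] at hz
    obtain ⟨hzs, t, ht, hzt⟩ := (hZm z).mp hz
    exact low z (((hSm t).mp ht).2.2 z hzt hzs)
  refine ⟨A, ?_, ?_⟩
  · have h1 : 0 < A.card := card_pos.mpr hAne
    omega
  · intro z hz
    rw [hA, mem_filter] at hz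
    obtain ⟨hzZ, hz1⟩ := hz
    obtain ⟨hzs, t, ht, hzt⟩ := (hZm z).mp hzZ
    have ht' := (hSm t).mp ht
    have hzc : η z < η c := ht'.2.2 z hzt hzs
    refine ⟨hzs, low z hzc, ?_⟩
    -- the two vertices over the triple
    have hy3 : (insert z s).card = 3 := by rw [card_insert_of_notMem hzs, hs2]
    have hyt : insert z s ⊆ t := insert_subset hzt ht'.2.1
    have hy2 := card_three h hy3 ht'.1 hyt
    obtain ⟨t1, ht1, ht1S⟩ : ∃ t1 ∈ (tets u b).filter (fun t => insert z s ⊆ t), t1 ∉ S := by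
      by_contra hcon
      push Not at hcon
      have h3 : ((tets u b).filter fun t => insert z s ⊆ t) ⊆ S.filter fun t => z ∈ t := by
        intro t1 ht1
        exact mem_filter.mpr ⟨hcon t1 ht1, (mem_filter.mp ht1).2 (mem_insert_self _ _)⟩
      have h4 := card_le_card h3
      omega
    rw [mem_filter] at ht1
    -- the fourth elements
    have ext4 : ∀ t ∈ tets u b, insert z s ⊆ t → ∃ v, v ∉ insert z s ∧ insert v (insert z s) = t := by
      intro t ht hsub
      have hc := (mem_tets.mp ht).1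
      have h1 : (t \ insert z s).card = 1 := by rw [card_sdiff_of_subset hsub, hc, hy3]
      obtain ⟨v, hv⟩ := card_eq_one.mp h1
      have hv1 : v ∈ t \ insert z s := by rw [hv]; exact mem_singleton_self _
      rw [mem_sdiff] at hv1
      refine ⟨v, hv1.2, ?_⟩
      apply eq_of_subset_of_card_le (insert_subset hv1.1 hsub)
      rw [card_insert_of_notMem hv1.2, hy3, hc]
    obtain ⟨v, hv, hvt⟩ := ext4 t ht'.1 hyt
    obtain ⟨v', hv', hvt'⟩ := ext4 t1 ht1.1 ht1.2
    have hvs : v ∉ s := fun e => hv (mem_insert_of_mem e)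
    have hvs' : v' ∉ s := fun e => hv' (mem_insert_of_mem e)
    have hvc : η v < η c := ht'.2.2 v (by rw [← hvt]; exact mem_insert_self _ _) hvs
    have hvc' : η c < η v' := by
      by_contra hcon
      apply ht1S
      rw [hSm]
      refine ⟨ht1.1, fun i hi => ht1.2 (mem_insert_of_mem hi), ?_⟩
      intro i hi his
      rw [← hvt', mem_insert, mem_insert] at hi
      rcases hi with rfl | rfl | hi
      · refine lt_of_le_of_ne (not_lt.mp hcon) fun e => ?_
        exact hvs' (hη e ▸ hcs)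
      · exact hzc
      · exact absurd hi his
    refine mem_alt.mpr ⟨z, c, y, by rw [hscy], hzc, hcy, v, v', hv, hv', ?_, ?_, hvc, hvc'⟩
    · rw [hvt]; exact ht'.1
    · rw [hvt']; exact ht1.1

theorem top_card (h : SP u b) (hη : Hts u b η) :
    2 * (top u b η).card ≤ 2 * Fintype.card ι + (alt u b η).card := by
  classical
  set N := top u b η \ clo u b η with hN
  have h1 : (top u b η).card ≤ N.card + (clo u b η).card := by
    rw [hN]
    exact card_le_card_sdiff_add_card
  have h2 := clo_card h hη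
  have hch : ∀ s ∈ N, ∃ A : Finset ι, 2 ≤ A.card ∧
      ∀ z ∈ A, z ∉ s ∧ (∀ a ∈ s, η z < η a) ∧ insert z s ∈ alt u b η := by
    intro s hs
    rw [hN, mem_sdiff] at hs
    exact two_alt h hη.inj hs.1 hs.2
  choose! A hA2 hA using hch
  have h3 : 2 * N.card ≤ (alt u b η).card := by
    have h4 : (N.biUnion fun s => (A s).image fun z => insert z s) ⊆ alt u b η := by
      intro y hy
      rw [mem_biUnion] at hy
      obtain ⟨s, hs, hy⟩ := hy
      obtain ⟨z, hz, rfl⟩ := mem_image.mp hy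
      exact (hA s hs z hz).2.2
    refine le_trans ?_ (card_le_card h4)
    rw [card_biUnion, mul_comm, ← smul_eq_mul, ← sum_const]
    · apply sum_le_sum
      intro s hs
      rw [card_image_of_injOn]
      · exact hA2 s hs
      · intro z hz z' hz' he
        rw [mem_coe] at hz hz'
        dsimp only at he
        have h5 : z ∈ insert z' s := by rw [← he]; exact mem_insert_self _ _
        rw [mem_insert] at h5
        rcases h5 with h5 | h5
        · exact h5
        · exact absurd h5 (hA s hs z hz).1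
    · intro s hs s' hs' hne
      rw [Function.onFun, disjoint_left]
      intro y hy hy'
      obtain ⟨z, hz, rfl⟩ := mem_image.mp hy
      obtain ⟨z', hz', he⟩ := mem_image.mp hy'
      obtain ⟨a1, a2, -⟩ := hA s hs z hz
      obtain ⟨b1, b2, -⟩ := hA s' hs' z' hz'
      have h5 : z = z' := by
        by_contra hzz
        have h6 : z ∈ s' := by
          have : z ∈ insert z' s' := by rw [he]; exact mem_insert_self _ _
          rw [mem_insert] at this
          exact this.resolve_left hzz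
        have h7 : z' ∈ s := by
          have : z' ∈ insert z s := by rw [← he]; exact mem_insert_self _ _
          rw [mem_insert] at this
          exact this.resolve_left fun e => hzz e.symm
        have h8 := b2 z h6
        have h9 := a2 z' h7
        linarith
      subst h5
      apply hne
      rw [← erase_insert a1, ← erase_insert b1, he]
  omega

end KAL
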