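import Pool.Agent.KAL.StmtsW
import Pool.Agent.KPX.Stmts
import Pool.Agent.TPH.Closed

/-!
# Pairs of the two highest vertices of the facets: lemmas on facet data

The proofs are those of `Pool/Agent/KPH/{Det,MidD,ZeroD}.lean` and
`Pool/Agent/KPX/{Sparse,Assign,Pair}.lean` with `SD` instead of `Tr.Data`.
-/

set_option autoImplicit false

namespace KAL

open TPH KPH KPX

def StmtDetS : Prop := ∀ (ι : Type) (V : Finset (E × ℝ)) (G : Finset ι) (u : ι → E) (s q : ι → ℝ),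
  SD V G u s q → ∀ g ∈ G, ∀ g' ∈ G, ∀ (t t' κ : ℝ), t ≠ t' → 0 < κ → u g' = κ • u g →
  (Zr V (u g) (s g) (q g) t).Nonempty → (Zr V (u g) (s g) (q g) t').Nonempty →
  (Zr V (u g') (s g') (q g') t).Nonempty → (Zr V (u g') (s g') (q g') t').Nonempty → g' = g

def StmtMidS : Prop := ∀ (ι : Type) (V : Finset (E × ℝ)) (G : Finset ι) (u : ι → E) (s q : ι → ℝ),
  SD V G u s q → ∀ (t₁ t₂ t₃ : ℝ) (S : Finset ι), Btw t₁ t₂ t₃ → S ⊆ G →
  (∀ g ∈ S, (Zr V (u g) (s g) (q g) t₂).card = 2 ∧ (Zr V (u g) (s g) (q g) t₁).Nonempty ∧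
    (Zr V (u g) (s g) (q g) t₃).Nonempty) →
  S.card ≤ 24 * (Tr.lay V t₂).card + 2 * (Tr.lay V t₁).card

def StmtZeroS : Prop := ∀ (ι : Type) (V : Finset (E × ℝ)) (G : Finset ι) (u : ι → E) (s q : ι → ℝ),
  SD V G u s q → ∀ (T : Finset ℝ) (S : Finset ι), (∀ v ∈ V, v.2 ∈ T) → S ⊆ G →
  (∀ g ∈ S, u g = 0) → S.card ≤ T.card

def StmtSparseS : Prop := ∀ (ι : Type) (V : Finset (E × ℝ)) (G : Finset ι) (u : ι → E) (s q : ι → ℝ),
  SD V G u s q → ∀ (c : E × ℝ) (σ : ℝ), c ∈ V → σ * σ = 1 →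
  ∀ (S : Finset ι) (p p' : ι → E × ℝ) (X : Finset (E × ℝ)), S ⊆ G → X ⊆ sd V σ c →
  (∀ x ∈ X, ∃ w, Mx (PJ σ c (sd V σ c)) w = {pj σ c x}) →
  (∀ g ∈ S, u g ≠ 0 ∧ Tr.val (u g) (s g) c = q g ∧ p g ∈ X ∧ p' g ∈ X ∧ p g ≠ p' g ∧
    Tr.val (u g) (s g) (p g) = q g ∧ Tr.val (u g) (s g) (p' g) = q g) →
  S.card ≤ 28 * X.card

def StmtAssignS : Prop := ∀ (ι : Type) (V : Finset (E × ℝ)) (G : Finset ι) (u : ι → E) (s q : ι → ℝ),
  SD V G u s q → ∀ (c : E × ℝ) (σ : ℝ), c ∈ V → σ * σ = 1 → ∀ (S : Finset ι), S ⊆ G →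
  (∀ g ∈ S, u g ≠ 0 ∧ Tr.val (u g) (s g) c = q g ∧ ∃ z ∈ sd V σ c, ∃ z' ∈ sd V σ c, z ≠ z' ∧
    Tr.val (u g) (s g) z = q g ∧ Tr.val (u g) (s g) z' = q g) →
  ∃ x : ι → E × ℝ, (∀ g ∈ S, x g ∈ sd V σ c ∧ Tr.val (u g) (s g) (x g) = q g) ∧
    ∀ v, (@Finset.filter ι (fun g => x g = v) (Classical.decPred _) S).card ≤ 56

def StmtPairS : Prop := ∀ (ι : Type) (V : Finset (E × ℝ)) (G : Finset ι) (u : ι → E) (s q : ι → ℝ),
  SD V G u s q → ∀ (V' : Finset (E × ℝ)) (t₁ t₂ t₃ : ℝ) (c : E × ℝ) (S : Finset ι)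
  (x y : ι → E × ℝ) (M : ℕ), V' ⊆ V → Btw t₁ t₂ t₃ → c ∈ Tr.lay V' t₂ → S ⊆ G →
  (∀ g ∈ S, x g ∈ Tr.lay V' t₁ ∧ Tr.val (u g) (s g) (x g) = q g ∧
    y g ∈ Tr.lay V' t₃ ∧ Tr.val (u g) (s g) (y g) = q g ∧ Zr V (u g) (s g) (q g) t₂ = {c}) →
  (∀ v, (@Finset.filter ι (fun g => x g = v) (Classical.decPred _) S).card ≤ M) →
  (∀ v, (@Finset.filter ι (fun g => y g = v) (Classical.decPred _) S).card ≤ M) →
  S.card ≤ 2 * M * (12 * evd V' t₁ t₂ t₃ c + 6)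


namespace MDet

/-- The two inequalities in one layer. -/
theorem layer_eq {ι : Type} {V : Finset (E × ℝ)} {G : Finset ι} {u : ι → E} {s q : ι → ℝ}
    (D : SD V G u s q) {g g' : ι} (hg : g ∈ G) (hg' : g' ∈ G) {t κ : ℝ} (hκ : 0 < κ)
    (hu : u g' = κ • u g) (h1 : (Zr V (u g) (s g) (q g) t).Nonempty)
    (h2 : (Zr V (u g') (s g') (q g') t).Nonempty) :
    (s g' - κ * s g) * t = q g' - κ * q g := by
  obtain ⟨x, hx⟩ := h1
  obtain ⟨y, hy⟩ := h2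
  obtain ⟨hxV, hxt, hxv⟩ := Tr.mem_zer.1 hx
  obtain ⟨hyV, hyt, hyv⟩ := Tr.mem_zer.1 hy
  have hx' := D.nn g' hg' x hxV
  have hy' := D.nn g hg y hyV
  rw [Tr.val, hxt] at hxv
  rw [Tr.val, hxt, hu, ip_smul_right] at hx'
  rw [Tr.val, hyt, hu, ip_smul_right] at hyv
  rw [Tr.val, hyt] at hy'
  have h3 : κ * (ip y.1 (u g) + s g * t) ≤ κ * q g := mul_le_mul_of_nonneg_left hy' hκ.le
  have h4 : κ * (ip x.1 (u g) + s g * t) = κ * q g := by rw [hxv]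
  nlinarith

end MDet

/-- **StmtDetS.** -/
theorem t_DetS : StmtDetS := by
  intro ι V G u s q D g hg g' hg' t t' κ htt hκ hu h1 h1' h2 h2'
  have e1 := MDet.layer_eq D hg hg' hκ hu h1 h2
  have e2 := MDet.layer_eq D hg hg' hκ hu h1' h2'
  have e3 : (s g' - κ * s g) * (t - t') = 0 := by
    rw [mul_sub, e1, e2, sub_self]
  have e4 : s g' - κ * s g = 0 := by
    rcases mul_eq_zero.1 e3 with h | h
    · exact h
    · exact absurd (sub_eq_zero.1 h) htt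
  have e5 : q g' - κ * q g = 0 := by rw [← e1, e4, zero_mul]
  refine (D.inj g hg g' hg' (fun v hv hval => ?_)).symm
  rw [Tr.val] at hval
  rw [Tr.val, hu, ip_smul_right, sub_eq_zero.1 e4, sub_eq_zero.1 e5, ← hval]
  ring



namespace MMidD

variable {V : Finset (E × ℝ)} {ι : Type} {G : Finset ι} {u : ι → E} {s q : ι → ℝ}

/-- The case of a large middle layer. -/
theorem big (D : SD V G u s q) {t₁ t₂ t₃ : ℝ} {S : Finset ι} (hB : Btw t₁ t₂ t₃)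
    (hS : S ⊆ G) (h : ∀ g ∈ S, (Zr V (u g) (s g) (q g) t₂).card = 2 ∧
      (Zr V (u g) (s g) (q g) t₁).Nonempty ∧ (Zr V (u g) (s g) (q g) t₃).Nonempty)
    (h3 : 3 ≤ (Tr.lay V t₂).card) : S.card ≤ 24 * (Tr.lay V t₂).card := by
  rcases hB with ⟨h12, h23⟩ | ⟨h32, h21⟩
  · exact KAL.count_mid D TPH.Closed.edge_lin h12 h23 h3 S hS (fun g hg => (h g hg).1)
      (fun g hg => (h g hg).2.1) (fun g hg => (h g hg).2.2)
  · exact KAL.count_mid D TPH.Closed.edge_lin h32 h21 h3 S hS (fun g hg => (h g hg).1)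
      (fun g hg => (h g hg).2.2) (fun g hg => (h g hg).2.1)

/-- The case of a small middle layer. -/
theorem small (D : SD V G u s q) {t₁ t₂ t₃ : ℝ} {S : Finset ι} (hB : Btw t₁ t₂ t₃)
    (hS : S ⊆ G) (h : ∀ g ∈ S, (Zr V (u g) (s g) (q g) t₂).card = 2 ∧
      (Zr V (u g) (s g) (q g) t₁).Nonempty ∧ (Zr V (u g) (s g) (q g) t₃).Nonempty)
    (h3 : (Tr.lay V t₂).card ≤ 2) : S.card ≤ 2 * (Tr.lay V t₁).card := by
  classical
  have hne : t₁ ≠ t₂ := hB.ne.1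
  have hzl : ∀ g ∈ S, Zr V (u g) (s g) (q g) t₂ = Tr.lay V t₂ := by
    intro g hg
    refine Finset.eq_of_subset_of_card_le ?_ ?_
    · intro v hv
      have hv' := Tr.mem_zer.1 hv
      exact Tr.mem_lay.2 ⟨hv'.1, hv'.2.1⟩
    · rw [(h g hg).1]
      exact h3
  -- the chosen vertex in the first outer layer
  have hch : ∀ g : ι, ∃ z : E × ℝ, g ∈ S → z ∈ Zr V (u g) (s g) (q g) t₁ := by
    intro g
    by_cases hg : g ∈ S
    · obtain ⟨z, hz⟩ := (h g hg).2.1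
      exact ⟨z, fun _ => hz⟩
    · exact ⟨(0, 0), fun hg' => absurd hg' hg⟩
  choose z hz using hch
  have hmaps : ∀ g ∈ S, z g ∈ Tr.lay V t₁ := by
    intro g hg
    have hv' := Tr.mem_zer.1 (hz g hg)
    exact Tr.mem_lay.2 ⟨hv'.1, hv'.2.1⟩
  refine Finset.card_le_mul_card_image_of_maps_to (f := z) hmaps 2 ?_
  intro w hw
  rcases S.eq_empty_or_nonempty with hS0 | ⟨g1, hg1⟩
  · rw [hS0, Finset.filter_empty, Finset.card_empty]
    exact Nat.zero_le _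
  have hc2 : (Tr.lay V t₂).card = 2 := by
    rw [← hzl g1 hg1]
    exact (h g1 hg1).1
  obtain ⟨x, y, hxy, hl⟩ := Finset.card_eq_two.1 hc2
  have hx : x ∈ Tr.lay V t₂ := by rw [hl]; simp
  have hy : y ∈ Tr.lay V t₂ := by rw [hl]; simp
  have hx' := Tr.mem_lay.1 hx
  have hy' := Tr.mem_lay.1 hy
  have hw' := Tr.mem_lay.1 hw
  refine D.two x hx'.1 y hy'.1 w hw'.1 hxy ?_ ?_ _
    (fun g hg => hS (Finset.mem_filter.1 hg).1) ?_
  · rintro rfl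
    exact hne (hw'.2.symm.trans hx'.2)
  · rintro rfl
    exact hne (hw'.2.symm.trans hy'.2)
  · intro g hg
    obtain ⟨hgS, hgw⟩ := Finset.mem_filter.1 hg
    have k := hzl g hgS
    have kx : x ∈ Zr V (u g) (s g) (q g) t₂ := by rw [k]; exact hx
    have ky : y ∈ Zr V (u g) (s g) (q g) t₂ := by rw [k]; exact hy
    have kz := hz g hgS
    rw [hgw] at kz
    exact ⟨(Tr.mem_zer.1 kx).2.2, (Tr.mem_zer.1 ky).2.2, (Tr.mem_zer.1 kz).2.2⟩

end MMidD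

theorem t_MidS : StmtMidS := by
  intro ι V G u s q D t₁ t₂ t₃ S hB hS h
  by_cases h3 : 3 ≤ (Tr.lay V t₂).card
  · have := MMidD.big D hB hS h h3
    omega
  · have := MMidD.small D hB hS h (by omega)
    omega



namespace MZeroD

theorem val_zero {u : E} (hu : u = 0) (s : ℝ) (v : E × ℝ) : Tr.val u s v = s * v.2 := by
  rw [Tr.val, hu]
  simp [ip]

end MZeroD

theorem t_ZeroS : StmtZeroS := by
  classical
  intro ι V G u s q D T S hT hS h0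
  refine Finset.card_le_card_of_injOn (fun g => q g / s g) ?_ ?_
  · intro g hg
    have hg' : g ∈ S := hg
    obtain ⟨Z, hZ, hZ'⟩ := D.four g (hS hg')
    obtain ⟨v, hv⟩ := Finset.card_pos.1 (by omega : 0 < Z.card)
    obtain ⟨hvV, hvq⟩ := hZ' v hv
    have hs : s g ≠ 0 := D.nz g (hS hg') (h0 g hg')
    rw [MZeroD.val_zero (h0 g hg')] at hvq
    have h1 : v.2 = q g / s g := by
      rw [← hvq]; field_simp
    show q g / s g ∈ (T : Set ℝ)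
    rw [← h1]
    exact hT v hvV
  · intro g hg g' hg' he
    have hgS : g ∈ S := hg
    have hgS' : g' ∈ S := hg'
    have hs : s g ≠ 0 := D.nz g (hS hgS) (h0 g hgS)
    have hs' : s g' ≠ 0 := D.nz g' (hS hgS') (h0 g' hgS')
    have he' : q g / s g = q g' / s g' := he
    refine D.inj g (hS hgS) g' (hS hgS') ?_
    intro v _ hvq
    rw [MZeroD.val_zero (h0 g hgS)] at hvq
    rw [MZeroD.val_zero (h0 g' hgS')]
    have h1 : v.2 = q g / s g := by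
      rw [← hvq]; field_simp
    rw [h1, he']
    field_simp



namespace MSparse

theorem mem_sd {V : Finset (E × ℝ)} {σ : ℝ} {c x : E × ℝ} :
    x ∈ sd V σ c ↔ x ∈ V ∧ 0 < σ * (x.2 - c.2) := by
  classical
  simp [sd]

theorem mem_PJ {σ : ℝ} {c : E × ℝ} {X : Finset (E × ℝ)} {a : E} :
    a ∈ PJ σ c X ↔ ∃ x ∈ X, pj σ c x = a := by
  classical
  simp [PJ]

theorem card_PJ_le (σ : ℝ) (c : E × ℝ) (X : Finset (E × ℝ)) : (PJ σ c X).card ≤ X.card := by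
  classical
  exact Finset.card_image_le

theorem convPos {V : Finset (E × ℝ)} {σ : ℝ} {c : E × ℝ} {X : Finset (E × ℝ)} (hX : X ⊆ sd V σ c)
    (h : ∀ x ∈ X, ∃ w, Mx (PJ σ c (sd V σ c)) w = {pj σ c x}) : ConvPos (PJ σ c X) := by
  intro a ha
  obtain ⟨x, hx, rfl⟩ := mem_PJ.1 ha
  obtain ⟨w, hw⟩ := h x hx
  have hsub : ∀ b ∈ PJ σ c X, b ∈ PJ σ c (sd V σ c) := by
    intro b hb
    obtain ⟨z, hz, rfl⟩ := mem_PJ.1 hb
    exact mem_PJ.2 ⟨z, hX hz, rfl⟩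
  have hm : pj σ c x ∈ Mx (PJ σ c (sd V σ c)) w := by
    rw [hw]
    exact Finset.mem_singleton_self _
  refine ⟨w, ?_⟩
  ext b
  rw [Finset.mem_singleton]
  constructor
  · intro hb
    have hb' := mem_Mx.1 hb
    have h1 := hb'.2 _ ha
    have h2 := Mx_le hm (hsub b hb'.1)
    have h3 := mem_Mx_of_eq hm (hsub b hb'.1) (le_antisymm h2 h1)
    rw [hw] at h3
    exact Finset.mem_singleton.1 h3
  · rintro rfl
    exact mem_Mx.2 ⟨ha, fun b hb => Mx_le hm (hsub b hb)⟩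

theorem mem_Ed' {A e : Finset E} : e ∈ Ed A ↔ e ⊆ A ∧ e.card = 2 ∧ ∃ u, Mx A u = e := by
  simp only [Ed, Finset.mem_filter, Finset.mem_powerset]

theorem mem_Faces' {A e : Finset E} :
    e ∈ Faces A ↔ e ⊆ A ∧ 3 ≤ e.card ∧ ∃ u, u ≠ 0 ∧ Mx A u = e := by
  simp only [Faces, Finset.mem_filter, Finset.mem_powerset]

end MSparse

open MSparse in
theorem t_SparseS (hEL : TPH.StmtEdgeLin) (hPj : StmtPj) (hPjMx : StmtPjMx) : StmtSparseS := by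
  classical
  intro ι V G u s q hD c σ hc hσ S p p' X hSG hXsd hXexp hS
  have hinj := (hPj V c σ hc hσ hD.exp).1
  have key : ∀ g ∈ S, ∀ x ∈ X,
      (pj σ c x ∈ Mx (PJ σ c X) (u g) ↔ Tr.val (u g) (s g) x = q g) := by
    intro g hg x hx
    obtain ⟨_, hcq, hpX, _, _, hpq, _⟩ := hS g hg
    have h1 := hPjMx V c σ hc hσ hD.exp X hXsd (u g) (s g)
      (fun v hv => by rw [hcq]; exact hD.nn g (hSG hg) v hv)
      ⟨p g, hpX, by rw [hpq, hcq]⟩ x hx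
    rw [hcq] at h1
    exact h1
  have hA := hEL (PJ σ c X) (convPos hXsd hXexp)
  have hmaps : ∀ g ∈ S, Mx (PJ σ c X) (u g) ∈ Ed (PJ σ c X) ∪ Faces (PJ σ c X) := by
    intro g hg
    obtain ⟨hu, hcq, hpX, hpX', hne, hpq, hpq'⟩ := hS g hg
    have m1 := (key g hg (p g) hpX).2 hpq
    have m2 := (key g hg (p' g) hpX').2 hpq'
    have hne' : pj σ c (p g) ≠ pj σ c (p' g) :=
      fun h => hne (hinj _ (hXsd hpX) _ (hXsd hpX') h)
    have hcard : 1 < (Mx (PJ σ c X) (u g)).card :=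
      Finset.one_lt_card.2 ⟨_, m1, _, m2, hne'⟩
    rw [Finset.mem_union]
    rcases Nat.lt_or_ge (Mx (PJ σ c X) (u g)).card 3 with h | h
    · left
      exact mem_Ed'.2 ⟨Mx_subset _ _, by omega, u g, rfl⟩
    · right
      exact mem_Faces'.2 ⟨Mx_subset _ _, h, u g, hu, rfl⟩
  have hfib : ∀ F ∈ Ed (PJ σ c X) ∪ Faces (PJ σ c X),
      (S.filter (fun g => Mx (PJ σ c X) (u g) = F)).card ≤ 2 := by
    intro F _
    rcases (S.filter (fun g => Mx (PJ σ c X) (u g) = F)).eq_empty_or_nonempty with h | ⟨g0, hg0⟩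
    · rw [h]
      simp
    · rw [Finset.mem_filter] at hg0
      obtain ⟨hg0S, hg0F⟩ := hg0
      obtain ⟨hu, hcq, hpX, hpX', hne, hpq, hpq'⟩ := hS g0 hg0S
      have m1 := (key g0 hg0S (p g0) hpX).2 hpq
      have m2 := (key g0 hg0S (p' g0) hpX').2 hpq'
      have hsd1 := mem_sd.1 (hXsd hpX)
      have hsd2 := mem_sd.1 (hXsd hpX')
      have hnc : ∀ x : E × ℝ, 0 < σ * (x.2 - c.2) → x ≠ c := by
        rintro x hx rfl
        simp at hx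
      refine hD.two (p g0) hsd1.1 (p' g0) hsd2.1 c hc hne (hnc _ hsd1.2) (hnc _ hsd2.2) _
        ((Finset.filter_subset _ _).trans hSG) ?_
      intro g hg
      rw [Finset.mem_filter] at hg
      obtain ⟨hgS, hgF⟩ := hg
      refine ⟨(key g hgS (p g0) hpX).1 ?_, (key g hgS (p' g0) hpX').1 ?_, (hS g hgS).2.1⟩
      · rw [hgF, ← hg0F]
        exact m1
      · rw [hgF, ← hg0F]
        exact m2
  have h1 := Finset.card_le_mul_card_image_of_maps_to hmaps 2 hfib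
  have h2 := Finset.card_union_le (Ed (PJ σ c X)) (Faces (PJ σ c X))
  have h3 := card_PJ_le σ c X
  have h4 := hA.1
  have h5 := hA.2.2
  omega



namespace MAssign

theorem mem_sd {V : Finset (E × ℝ)} {σ : ℝ} {c x : E × ℝ} :
    x ∈ sd V σ c ↔ x ∈ V ∧ 0 < σ * (x.2 - c.2) := by
  classical
  simp [sd]

theorem mem_PJ {σ : ℝ} {c : E × ℝ} {X : Finset (E × ℝ)} {a : E} :
    a ∈ PJ σ c X ↔ ∃ x ∈ X, pj σ c x = a := by
  classical
  simp [PJ]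

theorem mem_dfil {ι : Type} {P : ι → Prop} {S : Finset ι} {g : ι}
    (h : g ∈ @Finset.filter ι P (Classical.decPred _) S) : g ∈ S ∧ P g :=
  (@Finset.mem_filter ι P (Classical.decPred _) S g).1 h

theorem two_exposed (hExp : StmtExpTwo) (hPj : StmtPj) (hPjMx : StmtPjMx) {ι : Type}
    {V : Finset (E × ℝ)} {G : Finset ι} {u : ι → E} {s q : ι → ℝ} (hD : SD V G u s q)
    {c : E × ℝ} {σ : ℝ} (hc : c ∈ V) (hσ : σ * σ = 1) {g : ι} (hg : g ∈ G)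
    (hcq : Tr.val (u g) (s g) c = q g)
    (hz : ∃ z ∈ sd V σ c, ∃ z' ∈ sd V σ c, z ≠ z' ∧
      Tr.val (u g) (s g) z = q g ∧ Tr.val (u g) (s g) z' = q g) :
    ∃ x x' : E × ℝ, (x ∈ sd V σ c ∧ ∃ w, Mx (PJ σ c (sd V σ c)) w = {pj σ c x}) ∧
      (x' ∈ sd V σ c ∧ ∃ w, Mx (PJ σ c (sd V σ c)) w = {pj σ c x'}) ∧ x ≠ x' ∧
      Tr.val (u g) (s g) x = q g ∧ Tr.val (u g) (s g) x' = q g := by
  classical
  obtain ⟨z, hz, z', hz', hne, hzq, hz'q⟩ := hz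
  have key : ∀ x ∈ sd V σ c,
      (pj σ c x ∈ Mx (PJ σ c (sd V σ c)) (u g) ↔ Tr.val (u g) (s g) x = q g) := by
    intro x hx
    have h1 := hPjMx V c σ hc hσ hD.exp (sd V σ c) (Finset.Subset.refl _) (u g) (s g)
      (fun v hv => by rw [hcq]; exact hD.nn g hg v hv) ⟨z, hz, by rw [hzq, hcq]⟩ x hx
    rw [hcq] at h1
    exact h1
  have hinj := (hPj V c σ hc hσ hD.exp).1
  have h2 : 2 ≤ (Mx (PJ σ c (sd V σ c)) (u g)).card :=
    Finset.one_lt_card.2 ⟨pj σ c z, (key z hz).2 hzq, pj σ c z', (key z' hz').2 hz'q,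
      fun h => hne (hinj z hz z' hz' h)⟩
  obtain ⟨a, ha, a', ha', haa, ⟨w, hw⟩, w', hw'⟩ := hExp _ _ h2
  obtain ⟨x, hx, rfl⟩ := mem_PJ.1 (Mx_subset _ _ ha)
  obtain ⟨x', hx', rfl⟩ := mem_PJ.1 (Mx_subset _ _ ha')
  exact ⟨x, x', ⟨hx, w, hw⟩, ⟨hx', w', hw'⟩, fun h => haa (by rw [h]), (key x hx).1 ha,
    (key x' hx').1 ha'⟩

end MAssign

open MAssign in
theorem t_AssignS (hDeg : StmtDeg) (hExp : StmtExpTwo) (hPj : StmtPj) (hPjMx : StmtPjMx)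
    (hSparse : StmtSparseS) : StmtAssignS := by
  classical
  intro ι V G u s q hD c σ hc hσ S hSG hS
  have h1 : ∀ g : ι, ∃ x x' : E × ℝ, g ∈ S →
      (x ∈ sd V σ c ∧ ∃ w, Mx (PJ σ c (sd V σ c)) w = {pj σ c x}) ∧
      (x' ∈ sd V σ c ∧ ∃ w, Mx (PJ σ c (sd V σ c)) w = {pj σ c x'}) ∧ x ≠ x' ∧
      Tr.val (u g) (s g) x = q g ∧ Tr.val (u g) (s g) x' = q g := by
    intro g
    by_cases hg : g ∈ S
    · obtain ⟨x, x', h⟩ := two_exposed hExp hPj hPjMx hD hc hσ (hSG hg) (hS g hg).2.1 (hS g hg).2.2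
      exact ⟨x, x', fun _ => h⟩
    · exact ⟨c, c, fun h => absurd h hg⟩
  choose p p' hp using h1
  obtain ⟨x, hx, hfib⟩ := hDeg ι (E × ℝ) 28
    ((sd V σ c).filter (fun x => ∃ w, Mx (PJ σ c (sd V σ c)) w = {pj σ c x})) S p p'
    (fun g hg => ⟨Finset.mem_filter.2 (hp g hg).1, Finset.mem_filter.2 (hp g hg).2.1,
      (hp g hg).2.2.1⟩)
    (fun Y hY => hSparse ι V G u s q hD c σ hc hσ _ p p' Y
      (fun g hg => hSG (mem_dfil hg).1)
      (fun y hy => (Finset.mem_filter.1 (hY hy)).1)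
      (fun y hy => (Finset.mem_filter.1 (hY hy)).2)
      (fun g hg => by
        have hg' := mem_dfil hg
        have h := hp g hg'.1
        exact ⟨(hS g hg'.1).1, (hS g hg'.1).2.1, hg'.2.1, hg'.2.2, h.2.2.1, h.2.2.2.1,
          h.2.2.2.2⟩))
  refine ⟨x, fun g hg => ?_, fun v => hfib v⟩
  have h := hp g hg
  rcases hx g hg with he | he
  · rw [he]
    exact ⟨h.1.1, h.2.2.2.1⟩
  · rw [he]
    exact ⟨h.2.1.1, h.2.2.2.2⟩



namespace MPair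

/-- Three different facets do not have three different common vertices. -/
theorem no_three {ι : Type} {V : Finset (E × ℝ)} {G : Finset ι} {u : ι → E} {s q : ι → ℝ}
    (D : SD V G u s q) {g₁ g₂ g₃ : ι} (h1 : g₁ ∈ G) (h2 : g₂ ∈ G) (h3 : g₃ ∈ G)
    (n12 : g₁ ≠ g₂) (n13 : g₁ ≠ g₃) (n23 : g₂ ≠ g₃) {x y z : E × ℝ} (hx : x ∈ V) (hy : y ∈ V)
    (hz : z ∈ V) (hxy : x ≠ y) (hxz : x ≠ z) (hyz : y ≠ z)
    (x1 : Tr.val (u g₁) (s g₁) x = q g₁) (x2 : Tr.val (u g₂) (s g₂) x = q g₂)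
    (x3 : Tr.val (u g₃) (s g₃) x = q g₃)
    (y1 : Tr.val (u g₁) (s g₁) y = q g₁) (y2 : Tr.val (u g₂) (s g₂) y = q g₂)
    (y3 : Tr.val (u g₃) (s g₃) y = q g₃)
    (z1 : Tr.val (u g₁) (s g₁) z = q g₁) (z2 : Tr.val (u g₂) (s g₂) z = q g₂)
    (z3 : Tr.val (u g₃) (s g₃) z = q g₃) : False := by
  classical
  have hsub : ({g₁, g₂, g₃} : Finset ι) ⊆ G := by
    intro g hg
    rw [Finset.mem_insert, Finset.mem_insert, Finset.mem_singleton] at hg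
    rcases hg with rfl | rfl | rfl
    · exact h1
    · exact h2
    · exact h3
  have hc := D.two x hx y hy z hz hxy hxz hyz {g₁, g₂, g₃} hsub (by
    intro g hg
    rw [Finset.mem_insert, Finset.mem_insert, Finset.mem_singleton] at hg
    rcases hg with rfl | rfl | rfl
    · exact ⟨x1, y1, z1⟩
    · exact ⟨x2, y2, z2⟩
    · exact ⟨x3, y3, z3⟩)
  rw [Finset.card_eq_three.2 ⟨g₁, g₂, g₃, n12, n13, n23, rfl⟩] at hc
  omega

/-- A functional which attains its maximal value on three layers gives a tie. -/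
theorem tie {V : Finset (E × ℝ)} {u : E} {s q t₁ t₂ t₃ : ℝ} {v : E × ℝ} (hB : Btw t₁ t₂ t₃)
    (hnn : ∀ v ∈ V, Tr.val u s v ≤ q) (hnz : u = 0 → s ≠ 0) (hv : v ∈ Tr.zer V t₂ u s q)
    (h1 : (Tr.zer V t₁ u s q).Nonempty) (h3 : (Tr.zer V t₃ u s q).Nonempty) :
    u ≠ 0 ∧ Tie (AA V t₁ t₂ t₃) (BB V t₁ t₂ t₃) v.1 u ∧
      (Tr.zer V t₂ u s q = {v} → Mx (CC V t₂) u = {v.1}) := by
  classical
  have hα := hB.wt_pos
  have hβ := hB.symm.wt_pos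
  have hab := hB.wt_add
  have ht := hB.wt_eq
  have kα : 0 < 2 * wt t₁ t₂ t₃ := by linarith
  have kβ : 0 < 2 * wt t₃ t₂ t₁ := by linarith
  have hv' := Tr.mem_zer.1 hv
  have hvv : ip v.1 u = q - s * t₂ := by
    have h := hv'.2.2
    rw [Tr.val, hv'.2.1] at h
    linarith
  have nA : (Mx (AA V t₁ t₂ t₃) u).Nonempty := by
    rw [← Finset.card_pos, AA, Tr.card_Mx kα hnn h1]
    exact Finset.card_pos.2 h1
  have nB : (Mx (BB V t₁ t₂ t₃) u).Nonempty := by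
    rw [← Finset.card_pos, BB, Tr.card_Mx kβ hnn h3]
    exact Finset.card_pos.2 h3
  obtain ⟨a, ha⟩ := nA
  obtain ⟨b, hb⟩ := nB
  have ea := Tr.ip_of_mem kα hnn h1 ha
  have eb := Tr.ip_of_mem kβ hnn h3 hb
  have heq : ip a u + ip b u = 2 * ip v.1 u := by
    rw [ea, eb, hvv]
    have h : wt t₃ t₂ t₁ = 1 - wt t₁ t₂ t₃ := by linarith
    have h2 : t₂ = wt t₁ t₂ t₃ * t₁ + (1 - wt t₁ t₂ t₃) * t₃ := by rw [← h]; exact ht.symm
    rw [h]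
    have h4 : s * t₂ = s * (wt t₁ t₂ t₃ * t₁ + (1 - wt t₁ t₂ t₃) * t₃) := by rw [← h2]
    linear_combination 2 * h4
  refine ⟨?_, ⟨inRc_of_mem ha hb heq.le, fun h => ?_⟩, ?_⟩
  · intro h0
    obtain ⟨x, hx⟩ := h1
    have hx' := Tr.mem_zer.1 hx
    have e1 := hx'.2.2
    have e2 := hv'.2.2
    rw [Tr.val, h0, ip_zero_right, hx'.2.1] at e1
    rw [Tr.val, h0, ip_zero_right, hv'.2.1] at e2
    have h : s * (t₁ - t₂) = 0 := by linarith
    rcases mul_eq_zero.1 h with h | h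
    · exact hnz h0 h
    · exact hB.ne.1 (sub_eq_zero.1 h)
  · have h' := h a (Mx_subset _ _ ha) b (Mx_subset _ _ hb)
    linarith
  · intro hz
    rw [CC, Tr.Mx_img one_pos hnn ⟨v, hv⟩, hz, Finset.image_singleton, one_smul]

/-- The sets of maximisers are large or different. -/
theorem triple {V' : Finset (E × ℝ)} {t k : ℝ} (hk : 0 < k) {u₁ u₂ : E} {s₁ s₂ q₁ q₂ : ℝ}
    {x₁ x₂ : E × ℝ} (hn1 : ∀ v ∈ V', Tr.val u₁ s₁ v ≤ q₁) (hn2 : ∀ v ∈ V', Tr.val u₂ s₂ v ≤ q₂)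
    (h1 : x₁ ∈ Tr.zer V' t u₁ s₁ q₁) (h2 : x₂ ∈ Tr.zer V' t u₂ s₂ q₂) (hne : x₁ ≠ x₂) :
    2 ≤ (Mx (Tr.img V' t k) u₁).card ∨ Mx (Tr.img V' t k) u₁ ≠ Mx (Tr.img V' t k) u₂ := by
  by_contra hcon
  push Not at hcon
  obtain ⟨hc, he⟩ := hcon
  have h1' := Tr.mem_zer.1 h1
  have h2' := Tr.mem_zer.1 h2
  have l1 : x₁ ∈ Tr.lay V' t := Tr.mem_lay.2 ⟨h1'.1, h1'.2.1⟩
  have l2 : x₂ ∈ Tr.lay V' t := Tr.mem_lay.2 ⟨h2'.1, h2'.2.1⟩
  have m1 : k • x₁.1 ∈ Mx (Tr.img V' t k) u₁ := (Tr.mem_Mx_img hk hn1 ⟨x₁, h1⟩ l1).2 h1'.2.2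
  have m2 : k • x₂.1 ∈ Mx (Tr.img V' t k) u₁ := by
    rw [he]
    exact (Tr.mem_Mx_img hk hn2 ⟨x₂, h2⟩ l2).2 h2'.2.2
  have h3 : k • x₁.1 = k • x₂.1 := Finset.card_le_one.1 (by omega) _ m1 _ m2
  exact hne (Tr.injOn (V := V') (t := t) hk l1 l2 h3)

end MPair

/-- **StmtPairS.** -/
theorem t_PairS (hMulti : TPH.StmtMultiAll) (hRay : KPH.StmtRayD) (hDet : StmtDetS)
    (hMatch : StmtMatch) : StmtPairS := by
  classical
  intro ι V G u s q D V' t₁ t₂ t₃ c S x y M hV hB hc hS h hx hy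
  obtain ⟨W, hWS, ix, iy, hcard⟩ := hMatch ι (E × ℝ) M S x y hx hy
  have hWG : W ⊆ G := hWS.trans hS
  have key : W.card ≤ 12 * evd V' t₁ t₂ t₃ c + 6 := by
    have hc' := Tr.mem_lay.1 hc
    have hexp : ∀ v ∈ V', ∃ (u : E) (s : ℝ), ∀ v' ∈ V', v' ≠ v → Tr.val u s v' < Tr.val u s v := by
      intro v hv
      obtain ⟨r, s₀, hr⟩ := D.exp v (hV hv)
      exact ⟨r, s₀, fun v' hv' hne => hr v' (hV hv') hne⟩
    have hnn : ∀ g ∈ W, ∀ v ∈ V', Tr.val (u g) (s g) v ≤ q g := fun g hg v hv =>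
      D.nn g (hWG hg) v (hV hv)
    have zx : ∀ g ∈ W, x g ∈ Tr.zer V' t₁ (u g) (s g) (q g) := fun g hg => by
      obtain ⟨h1, h2, -⟩ := h g (hWS hg)
      have h1' := Tr.mem_lay.1 h1
      exact Tr.mem_zer.2 ⟨h1'.1, h1'.2, h2⟩
    have zy : ∀ g ∈ W, y g ∈ Tr.zer V' t₃ (u g) (s g) (q g) := fun g hg => by
      obtain ⟨-, -, h1, h2, -⟩ := h g (hWS hg)
      have h1' := Tr.mem_lay.1 h1
      exact Tr.mem_zer.2 ⟨h1'.1, h1'.2, h2⟩
    have vc : ∀ g ∈ W, Tr.val (u g) (s g) c = q g := fun g hg => by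
      have h1 : Tr.zer V t₂ (u g) (s g) (q g) = {c} := (h g (hWS hg)).2.2.2.2
      have h2 : c ∈ Tr.zer V t₂ (u g) (s g) (q g) := by rw [h1]; simp
      exact (Tr.mem_zer.1 h2).2.2
    have zc : ∀ g ∈ W, Tr.zer V' t₂ (u g) (s g) (q g) = {c} := fun g hg => by
      have h1 : Tr.zer V t₂ (u g) (s g) (q g) = {c} := (h g (hWS hg)).2.2.2.2
      apply Finset.Subset.antisymm
      · intro v hv
        have hv' := Tr.mem_zer.1 hv
        rw [← h1]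
        exact Tr.mem_zer.2 ⟨hV hv'.1, hv'.2⟩
      · intro v hv
        rw [Finset.mem_singleton] at hv
        rw [hv]
        exact Tr.mem_zer.2 ⟨hc'.1, hc'.2, vc g hg⟩
    have cz : ∀ g ∈ W, c ∈ Tr.zer V' t₂ (u g) (s g) (q g) := fun g hg => by rw [zc g hg]; simp
    have up : ∀ {t : ℝ} {g : ι} {v : E × ℝ}, v ∈ Tr.zer V' t (u g) (s g) (q g) →
        v ∈ Tr.zer V t (u g) (s g) (q g) := fun {t g v} hv => by
      have hv' := Tr.mem_zer.1 hv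
      exact Tr.mem_zer.2 ⟨hV hv'.1, hv'.2⟩
    have kA : 0 < 2 * wt t₁ t₂ t₃ := by have := hB.wt_pos; linarith
    have kB : 0 < 2 * wt t₃ t₂ t₁ := by have := hB.symm.wt_pos; linarith
    have hdet : ∀ g ∈ W, ∀ g' ∈ W, ∀ κ : ℝ, 0 < κ → u g' = κ • u g → g' = g :=
      fun g hg g' hg' κ hκ he =>
        hDet ι V G u s q D g (hWG hg) g' (hWG hg') t₁ t₂ κ hB.ne.1 hκ he ⟨x g, up (zx g hg)⟩
          ⟨c, up (cz g hg)⟩ ⟨x g', up (zx g' hg')⟩ ⟨c, up (cz g' hg')⟩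
    have hinj : Set.InjOn u (W : Set ι) := by
      intro g hg g' hg' he
      exact hdet g' hg' g hg 1 one_pos (by rw [one_smul]; exact he)
    obtain ⟨r, s₀, hr⟩ := hexp c hc'.1
    obtain ⟨hray1, hray2⟩ := hRay V' c r s₀ hc'.1 hr
    rw [hc'.2] at hray1 hray2
    have ht := fun g (hg : g ∈ W) => MPair.tie hB (hnn g hg) (D.nz g (hWG hg)) (cz g hg)
      ⟨x g, zx g hg⟩ ⟨y g, zy g hg⟩
    have hmain := hMulti 1 (fun _ => AA V' t₁ t₂ t₃) (fun _ => BB V' t₁ t₂ t₃) (CC V' t₂) c.1 r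
      (W.image u) (fun _ => Tr.convPos_img kA hexp) (fun _ => Tr.convPos_img kB hexp)
      (Tr.convPos_img one_pos hexp) (fun _ => hray2 t₁ t₃ hB) hray1
      (by
        intro w hw
        obtain ⟨g, hg, rfl⟩ := Finset.mem_image.1 hw
        exact ⟨(ht g hg).1, (ht g hg).2.2 (zc g hg), fun _ => (ht g hg).2.1⟩)
      (by
        intro w hw w' hw' κ hκ he
        obtain ⟨g, hg, rfl⟩ := Finset.mem_image.1 hw
        obtain ⟨g', hg', rfl⟩ := Finset.mem_image.1 hw'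
        rw [hdet g hg g' hg' κ hκ he])
      (by
        intro w₁ hw₁ w₂ hw₂ w₃ hw₃ n12 n13 n23
        obtain ⟨g₁, hg₁, rfl⟩ := Finset.mem_image.1 hw₁
        obtain ⟨g₂, hg₂, rfl⟩ := Finset.mem_image.1 hw₂
        have m12 : g₁ ≠ g₂ := fun h => n12 (by rw [h])
        have a1 := MPair.triple kA (hnn g₁ hg₁) (hnn g₂ hg₂) (zx g₁ hg₁) (zx g₂ hg₂)
          (fun he => m12 (ix g₁ hg₁ g₂ hg₂ he))
        have b1 := MPair.triple kB (hnn g₁ hg₁) (hnn g₂ hg₂) (zy g₁ hg₁) (zy g₂ hg₂)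
          (fun he => m12 (iy g₁ hg₁ g₂ hg₂ he))
        refine ⟨0, ?_, ?_⟩
        · rcases a1 with a1 | a1
          · exact Or.inl a1
          · exact Or.inr (Or.inl a1)
        · rcases b1 with b1 | b1
          · exact Or.inl b1
          · exact Or.inr (Or.inl b1))
      (by
        intro _ w₁ hw₁ w₂ hw₂ w₃ hw₃ n12 n13 n23 e he e1 e2 e3
        obtain ⟨g₁, hg₁, rfl⟩ := Finset.mem_image.1 hw₁
        obtain ⟨g₂, hg₂, rfl⟩ := Finset.mem_image.1 hw₂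
        obtain ⟨g₃, hg₃, rfl⟩ := Finset.mem_image.1 hw₃
        have m12 : g₁ ≠ g₂ := fun h => n12 (by rw [h])
        have m13 : g₁ ≠ g₃ := fun h => n13 (by rw [h])
        have m23 : g₂ ≠ g₃ := fun h => n23 (by rw [h])
        obtain ⟨a, b, hab, rfl⟩ := Finset.card_eq_two.1 he
        have ha : a ∈ ({a, b} : Finset E) := by simp
        have hb : b ∈ ({a, b} : Finset E) := by simp
        obtain ⟨p, hp, rfl⟩ := Tr.mem_img.1 (Mx_subset _ _ (e1 ha))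
        obtain ⟨p', hp', rfl⟩ := Tr.mem_img.1 (Mx_subset _ _ (e1 hb))
        have lp := Tr.mem_lay.1 hp
        have lp' := Tr.mem_lay.1 hp'
        have f := fun (g : ι) (hg : g ∈ W) {v : E × ℝ} (hv : v ∈ Tr.lay V' t₁)
          (hm : (2 * wt t₁ t₂ t₃) • v.1 ∈ Mx (Tr.img V' t₁ (2 * wt t₁ t₂ t₃)) (u g)) =>
          (Tr.mem_Mx_img kA (hnn g hg) ⟨x g, zx g hg⟩ hv).1 hm
        refine MPair.no_three D (hWG hg₁) (hWG hg₂) (hWG hg₃) m12 m13 m23 (hV lp.1) (hV lp'.1)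
          (hV hc'.1) ?_ ?_ ?_ (f g₁ hg₁ hp (e1 ha)) (f g₂ hg₂ hp (e2 ha)) (f g₃ hg₃ hp (e3 ha))
          (f g₁ hg₁ hp' (e1 hb)) (f g₂ hg₂ hp' (e2 hb)) (f g₃ hg₃ hp' (e3 hb))
          (vc g₁ hg₁) (vc g₂ hg₂) (vc g₃ hg₃)
        · rintro rfl; exact hab rfl
        · rintro rfl; exact hB.ne.1 (lp.2.symm.trans hc'.2)
        · rintro rfl; exact hB.ne.1 (lp'.2.symm.trans hc'.2))
    rw [Finset.card_image_of_injOn hinj, Fin.sum_univ_one] at hmain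
    exact hmain
  exact hcard.trans (Nat.mul_le_mul_left _ key)


end KAL
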