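import Pool.Agent.KAL.StmtsW

/-!
# Pairs of the two lowest vertices of the facets, by reflection
-/

set_option autoImplicit false

namespace KAL

open TPH KPH KPX

/-- The reflection of the heights. -/
def rfl' (v : E × ℝ) : E × ℝ := (v.1, -v.2)

theorem rfl'_rfl' (v : E × ℝ) : rfl' (rfl' v) = v := by
  simp [rfl']

theorem rfl'_inj : Function.Injective rfl' := by
  intro v w h
  have := congrArg rfl' h
  rwa [rfl'_rfl', rfl'_rfl'] at this

theorem val_rfl' (u : E) (s : ℝ) (v : E × ℝ) : Tr.val u (-s) (rfl' v) = Tr.val u s v := by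
  simp [rfl', Tr.val]

open Classical in
theorem SD.reflect {V : Finset (E × ℝ)} {ι : Type} {G : Finset ι} {u : ι → E} {s q : ι → ℝ}
    (D : SD V G u s q) : SD (V.image rfl') G u (fun g => -s g) q := by
  have hm : ∀ v ∈ V.image rfl', rfl' v ∈ V := by
    intro v hv
    obtain ⟨w, hw, rfl⟩ := Finset.mem_image.1 hv
    rw [rfl'_rfl']
    exact hw
  have hval : ∀ (u : E) (s : ℝ) (v : E × ℝ), Tr.val u (-s) v = Tr.val u s (rfl' v) := by
    intro u s v
    have := val_rfl' u s (rfl' v)
    rwa [rfl'_rfl'] at this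
  refine ⟨?_, ?_, ?_, ?_, ?_, ?_⟩
  · intro g hg v hv
    show Tr.val (u g) (-s g) v ≤ q g
    rw [hval]
    exact D.nn g hg _ (hm v hv)
  · intro g hg g' hg' h
    refine D.inj g hg g' hg' fun v hv hv1 => ?_
    have h1 := h (rfl' v) (Finset.mem_image_of_mem _ hv) (by rw [val_rfl']; exact hv1)
    rwa [val_rfl'] at h1
  · intro g hg h0 h1
    exact D.nz g hg h0 (neg_eq_zero.1 h1)
  · intro g hg
    obtain ⟨Z, hZ, hZV⟩ := D.four g hg
    refine ⟨Z.image rfl', by rwa [Finset.card_image_of_injective _ rfl'_inj], ?_⟩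
    intro v hv
    obtain ⟨w, hw, rfl⟩ := Finset.mem_image.1 hv
    exact ⟨Finset.mem_image_of_mem _ (hZV w hw).1, by rw [val_rfl']; exact (hZV w hw).2⟩
  · intro v hv
    obtain ⟨r, s₀, h⟩ := D.exp _ (hm v hv)
    refine ⟨r, -s₀, fun v' hv' hne => ?_⟩
    rw [hval, hval]
    refine h _ (hm v' hv') fun he => hne (rfl'_inj he)
  · intro x hx y hy z hz hxy hxz hyz S hS hS'
    refine D.two _ (hm x hx) _ (hm y hy) _ (hm z hz) (fun he => hxy (rfl'_inj he))
      (fun he => hxz (rfl'_inj he)) (fun he => hyz (rfl'_inj he)) S hS fun g hg => ?_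
    have h := hS' g hg
    simp only [hval] at h
    exact h

set_option maxHeartbeats 400000 in
theorem t_BotW (hTop : StmtTopW) : StmtBotW := by
  classical
  obtain ⟨K, hK, hTop'⟩ := hTop
  refine ⟨K, hK, ?_⟩
  intro ι V G u s q D T hT ord hord P hP
  have h := hTop' ι (V.image rfl') G u (fun g => -s g) q D.reflect (T.image (fun t => -t))
    (by
      intro v hv
      obtain ⟨w, hw, rfl⟩ := Finset.mem_image.1 hv
      exact Finset.mem_image.2 ⟨w.2, hT w hw, rfl⟩)
    (fun v => -ord (rfl' v))
    (by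
      intro v hv v' hv' hlt
      obtain ⟨w, hw, rfl⟩ := Finset.mem_image.1 hv
      obtain ⟨w', hw', rfl⟩ := Finset.mem_image.1 hv'
      rw [rfl'_rfl', rfl'_rfl']
      have : w'.2 < w.2 := by
        simp only [rfl'] at hlt
        linarith
      have := hord w' hw' w hw this
      linarith)
    (P.image (fun p => (rfl' p.1, rfl' p.2)))
    (by
      intro p hp
      obtain ⟨p, hpP, rfl⟩ := Finset.mem_image.1 hp
      obtain ⟨a1, a2, a3, g, hg, a4, a5, a6⟩ := hP p hpP
      refine ⟨Finset.mem_image_of_mem _ a1, Finset.mem_image_of_mem _ a2, ?_, g, hg, ?_, ?_, ?_⟩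
      · show -ord (rfl' (rfl' p.1)) < -ord (rfl' (rfl' p.2))
        rw [rfl'_rfl', rfl'_rfl']
        linarith
      · show Tr.val (u g) (-s g) (rfl' p.1) = q g
        rw [val_rfl']
        exact a4
      · show Tr.val (u g) (-s g) (rfl' p.2) = q g
        rw [val_rfl']
        exact a5
      · intro v hv hv1 hne1 hne2
        obtain ⟨w, hw, rfl⟩ := Finset.mem_image.1 hv
        have hv2 : Tr.val (u g) (s g) w = q g := by
          rw [← val_rfl']
          exact hv1
        show -ord (rfl' (rfl' w)) < -ord (rfl' (rfl' p.1))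
        rw [rfl'_rfl', rfl'_rfl']
        have := a6 w hw hv2 (fun e => hne1 (by rw [e])) (fun e => hne2 (by rw [e]))
        linarith)
  rw [Finset.card_image_of_injective, Finset.card_image_of_injective _ rfl'_inj,
    Finset.card_image_of_injective _ neg_injective] at h
  · exact h
  · intro p p' he
    have h1 := congrArg Prod.fst he
    have h2 := congrArg Prod.snd he
    exact Prod.ext (rfl'_inj h1) (rfl'_inj h2)

end KAL
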