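import Pool.Agent.KAL.WTop
import Pool.Agent.KAL.WRefl
import Pool.Agent.KPX.Closed

/-!
# Pairs of the two highest vertices of the facets: closed statements
-/

set_option autoImplicit false

namespace KAL

open TPH KPH KPX

namespace WClosed

theorem c_DetS : StmtDetS := t_DetS
theorem c_MidS : StmtMidS := t_MidS
theorem c_ZeroS : StmtZeroS := t_ZeroS
theorem c_SparseS : StmtSparseS :=
  t_SparseS TPH.Closed.c_t_EdgeLin KPX.Closed.c_t_Pj KPX.Closed.c_t_PjMx
theorem c_AssignS : StmtAssignS :=
  t_AssignS KPX.Closed.c_t_Deg KPX.Closed.c_t_ExpTwo KPX.Closed.c_t_Pj KPX.Closed.c_t_PjMx c_SparseS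
theorem c_PairS : StmtPairS :=
  t_PairS KPH.Closed.c_t_MultiAll KPH.Closed.c_t_RayD c_DetS KPX.Closed.c_t_Match
theorem c_MainS : StmtMainS := t_MainS KPH.Closed.c_t_Wd c_AssignS c_PairS
theorem c_ClassesS : StmtClassesS := t_ClassesS KPX.Closed.c_t_Part c_MainS

end WClosed

/-- **Pairs of a facet and a vertex.** -/
theorem pairsW : StmtPairsW := t_PairsW WClosed.c_AssignS WClosed.c_ClassesS

/-- **The pairs of the two highest vertices.** -/
theorem topW : StmtTopW :=
  t_TopW TPH.Closed.c_t_EdgeLin WClosed.c_ZeroS WClosed.c_MidS WClosed.c_ClassesS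

/-- **The pairs of the two lowest vertices.** -/
theorem botW : StmtBotW := t_BotW topW

end KAL
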