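import Pool.Agent.KAL.WBase
import Pool.Agent.KPX.Main

/-!
# Pairs of a facet and a vertex: the count with classes
-/

set_option autoImplicit false

namespace KAL

open TPH KPH KPX

/-- Facet data for a set of facets with other names. -/
theorem SD.reindex {V : Finset (E × ℝ)} {ι κ : Type} {G : Finset ι} {u : ι → E} {s q : ι → ℝ}
    (D : SD V G u s q) (S : Finset κ) (g : κ → ι) (hg : ∀ a ∈ S, g a ∈ G)
    (hinj : ∀ a ∈ S, ∀ a' ∈ S, g a = g a' → a = a') :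
    SD V S (fun a => u (g a)) (fun a => s (g a)) (fun a => q (g a)) := by
  classical
  refine ⟨fun a ha => D.nn _ (hg a ha), ?_, fun a ha => D.nz _ (hg a ha),
    fun a ha => D.four _ (hg a ha), D.exp, ?_⟩
  · intro a ha a' ha' h
    exact hinj a ha a' ha' (D.inj _ (hg a ha) _ (hg a' ha') h)
  · intro x hx y hy z hz hxy hxz hyz F hF hF'
    have h1 := D.two x hx y hy z hz hxy hxz hyz (F.image g)
      (by
        intro b hb
        obtain ⟨a, ha, rfl⟩ := Finset.mem_image.1 hb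
        exact hg a (hF ha))
      (by
        intro b hb
        obtain ⟨a, ha, rfl⟩ := Finset.mem_image.1 hb
        exact hF' a ha)
    rwa [Finset.card_image_of_injOn] at h1
    intro a ha a' ha' h
    exact hinj a (hF ha) a' (hF ha') h

namespace MMainS

open Classical in
/-- The facets given to three classes. -/
theorem cell (hPair : StmtPairS) {ι : Type} {V : Finset (E × ℝ)} {u : ι → E}
    {s q : ι → ℝ} {S : Finset ι} (cF : ι → E × ℝ)
    (hD : ∀ c, SD V (S.filter (fun g => cF g = c)) u s q)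
    (x y : E × ℝ → ι → E × ℝ)
    (hcV : ∀ g ∈ S, cF g ∈ V)
    (hcZ : ∀ g ∈ S, Zr V (u g) (s g) (q g) (cF g).2 = {cF g})
    (hx : ∀ g ∈ S, x (cF g) g ∈ sd V (-1) (cF g) ∧ Tr.val (u g) (s g) (x (cF g) g) = q g)
    (hy : ∀ g ∈ S, y (cF g) g ∈ sd V 1 (cF g) ∧ Tr.val (u g) (s g) (y (cF g) g) = q g)
    (hxm : ∀ c ∈ V, ∀ v, ((S.filter (fun g => cF g = c)).filter (fun g => x c g = v)).card ≤ 56)
    (hym : ∀ c ∈ V, ∀ v, ((S.filter (fun g => cF g = c)).filter (fun g => y c g = v)).card ≤ 56)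
    {m : ℕ} {cl : E × ℝ → ℝ × ℕ} (hcl : ∀ v ∈ V, (cl v).1 = v.2)
    (hm : ∀ j : ℝ × ℕ, (V.filter (fun v => cl v = j)).card ≤ m)
    (j₁ j₂ j₃ : ℝ × ℕ) (K : ℕ)
    (hK : ∀ (V : Finset (E × ℝ)) (t₁ t₂ t₃ : ℝ), Btw t₁ t₂ t₃ →
      (∀ v ∈ V, ∃ (u : E) (s : ℝ), ∀ v' ∈ V, v' ≠ v → Tr.val u s v' < Tr.val u s v) →
      (Wd V t₁ t₂ t₃) ^ 2 ≤ K * ((Tr.lay V t₁).card + (Tr.lay V t₂).card + (Tr.lay V t₃).card) ^ 3) :
    ((S.filter (fun g => cl (x (cF g) g) = j₁ ∧ cl (cF g) = j₂ ∧ cl (y (cF g) g) = j₃)).card : ℝ) ≤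
      1344 * (Real.sqrt (27 * K) * (m : ℝ) ^ (3 / 2 : ℝ)) + 672 * m := by
  set F : Finset ι :=
    S.filter (fun g => cl (x (cF g) g) = j₁ ∧ cl (cF g) = j₂ ∧ cl (y (cF g) g) = j₃) with hF
  rcases F.eq_empty_or_nonempty with h0 | ⟨g₀, hg₀⟩
  · rw [h0]
    simp only [Finset.card_empty, Nat.cast_zero]
    positivity
  have hsd : ∀ (σ : ℝ) (c v : E × ℝ), v ∈ sd V σ c → v ∈ V ∧ 0 < σ * (v.2 - c.2) := by
    intro σ c v hv
    exact Finset.mem_filter.1 hv
  have hFS : ∀ g ∈ F, g ∈ S ∧ cl (x (cF g) g) = j₁ ∧ cl (cF g) = j₂ ∧ cl (y (cF g) g) = j₃ :=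
    fun g hg => Finset.mem_filter.1 hg
  -- heights
  obtain ⟨a0, a1, a2, a3⟩ := hFS g₀ hg₀
  have b1 := hsd _ _ _ (hx g₀ a0).1
  have b3 := hsd _ _ _ (hy g₀ a0).1
  have b2 := hcV g₀ a0
  have e1 : j₁.1 = (x (cF g₀) g₀).2 := by rw [← a1]; exact hcl _ b1.1
  have e2 : j₂.1 = (cF g₀).2 := by rw [← a2]; exact hcl _ b2
  have e3 : j₃.1 = (y (cF g₀) g₀).2 := by rw [← a3]; exact hcl _ b3.1
  have l12 : j₁.1 < j₂.1 := by
    rw [e1, e2]
    have := b1.2
    linarith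
  have l23 : j₂.1 < j₃.1 := by
    rw [e2, e3]
    have := b3.2
    linarith
  have hB : Btw j₁.1 j₂.1 j₃.1 := Or.inl ⟨l12, l23⟩
  -- the union of the three classes
  set V' : Finset (E × ℝ) := V.filter (fun v => cl v = j₁ ∨ cl v = j₂ ∨ cl v = j₃) with hV'
  have hV'V : V' ⊆ V := Finset.filter_subset _ _
  have lay1 : Tr.lay V' j₁.1 ⊆ V.filter (fun v => cl v = j₁) := by
    intro v hv
    obtain ⟨h1, h2⟩ := Tr.mem_lay.1 hv
    obtain ⟨h3, h4⟩ := Finset.mem_filter.1 h1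
    have h5 := hcl v h3
    refine Finset.mem_filter.2 ⟨h3, ?_⟩
    rcases h4 with h | h | h
    · exact h
    · rw [h] at h5
      exfalso
      rw [← h2] at l12
      linarith
    · rw [h] at h5
      exfalso
      rw [← h2] at l12
      linarith
  have lay2 : Tr.lay V' j₂.1 ⊆ V.filter (fun v => cl v = j₂) := by
    intro v hv
    obtain ⟨h1, h2⟩ := Tr.mem_lay.1 hv
    obtain ⟨h3, h4⟩ := Finset.mem_filter.1 h1
    have h5 := hcl v h3
    refine Finset.mem_filter.2 ⟨h3, ?_⟩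
    rcases h4 with h | h | h
    · rw [h] at h5
      exfalso
      rw [← h2] at l12
      linarith
    · exact h
    · rw [h] at h5
      exfalso
      rw [← h2] at l23
      linarith
  have lay3 : Tr.lay V' j₃.1 ⊆ V.filter (fun v => cl v = j₃) := by
    intro v hv
    obtain ⟨h1, h2⟩ := Tr.mem_lay.1 hv
    obtain ⟨h3, h4⟩ := Finset.mem_filter.1 h1
    have h5 := hcl v h3
    refine Finset.mem_filter.2 ⟨h3, ?_⟩
    rcases h4 with h | h | h
    · rw [h] at h5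
      exfalso
      rw [← h2] at l23
      linarith
    · rw [h] at h5
      exfalso
      rw [← h2] at l23
      linarith
    · exact h
  have c1 : (Tr.lay V' j₁.1).card ≤ m := (Finset.card_le_card lay1).trans (hm _)
  have c2 : (Tr.lay V' j₂.1).card ≤ m := (Finset.card_le_card lay2).trans (hm _)
  have c3 : (Tr.lay V' j₃.1).card ≤ m := (Finset.card_le_card lay3).trans (hm _)
  have hexp : ∀ v ∈ V', ∃ (u : E) (s : ℝ), ∀ v' ∈ V', v' ≠ v → Tr.val u s v' < Tr.val u s v := by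
    intro v hv
    obtain ⟨r, s₀, h⟩ := (hD 0).exp v (hV'V hv)
    exact ⟨r, s₀, fun v' hv' hne => h v' (hV'V hv') hne⟩
  have hW := MMain.wd_bound c1 c2 c3 (hK V' j₁.1 j₂.1 j₃.1 hB hexp)
  -- the sum over the middle vertex
  have hmap : ∀ g ∈ F, cF g ∈ Tr.lay V' j₂.1 := by
    intro g hg
    obtain ⟨d0, -, d2, -⟩ := hFS g hg
    refine Tr.mem_lay.2 ⟨Finset.mem_filter.2 ⟨hcV g d0, Or.inr (Or.inl d2)⟩, ?_⟩
    rw [← hcl _ (hcV g d0), d2]
  have hfib : ∀ c ∈ Tr.lay V' j₂.1,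
      (F.filter (fun g => cF g = c)).card ≤ 2 * 56 * (12 * evd V' j₁.1 j₂.1 j₃.1 c + 6) := by
    intro c hc
    have hcV' : c ∈ V := hV'V (Tr.mem_lay.1 hc).1
    have hsub : F.filter (fun g => cF g = c) ⊆ S.filter (fun g => cF g = c) := by
      intro g hg
      obtain ⟨h1, h2⟩ := Finset.mem_filter.1 hg
      exact Finset.mem_filter.2 ⟨(hFS g h1).1, h2⟩
    refine hPair ι V _ u s q (hD c) V' j₁.1 j₂.1 j₃.1 c (F.filter (fun g => cF g = c)) (x c) (y c)
      56 hV'V hB hc hsub ?_ ?_ ?_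
    · intro g hg
      obtain ⟨hgF, hgc⟩ := Finset.mem_filter.1 hg
      obtain ⟨d0, d1, d2, d3⟩ := hFS g hgF
      have x1 := hx g d0
      have y1 := hy g d0
      have z1 := hcZ g d0
      have hj2 : j₂.1 = (cF g).2 := by rw [← d2]; exact hcl _ (hcV g d0)
      rw [← hj2] at z1
      rw [hgc] at x1 y1 z1 d1 d3
      have x2 := hsd _ _ _ x1.1
      have y2 := hsd _ _ _ y1.1
      refine ⟨Tr.mem_lay.2 ⟨Finset.mem_filter.2 ⟨x2.1, Or.inl d1⟩, ?_⟩, x1.2,
        Tr.mem_lay.2 ⟨Finset.mem_filter.2 ⟨y2.1, Or.inr (Or.inr d3)⟩, ?_⟩, y1.2, z1⟩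
      · rw [← hcl _ x2.1, d1]
      · rw [← hcl _ y2.1, d3]
    · intro v
      have h5 : ((F.filter (fun g => cF g = c)).filter (fun g => x c g = v)).card ≤ 56 :=
        le_trans (Finset.card_le_card (fun g hg => Finset.mem_filter.2
          ⟨hsub (Finset.mem_filter.1 hg).1, (Finset.mem_filter.1 hg).2⟩)) (hxm c hcV' v)
      convert h5
    · intro v
      have h5 : ((F.filter (fun g => cF g = c)).filter (fun g => y c g = v)).card ≤ 56 :=
        le_trans (Finset.card_le_card (fun g hg => Finset.mem_filter.2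
          ⟨hsub (Finset.mem_filter.1 hg).1, (Finset.mem_filter.1 hg).2⟩)) (hym c hcV' v)
      convert h5
  have hsum : F.card ≤ 1344 * Wd V' j₁.1 j₂.1 j₃.1 + 672 * m := by
    calc F.card = ∑ c ∈ Tr.lay V' j₂.1, (F.filter (fun g => cF g = c)).card :=
          Finset.card_eq_sum_card_fiberwise hmap
      _ ≤ ∑ c ∈ Tr.lay V' j₂.1, 2 * 56 * (12 * evd V' j₁.1 j₂.1 j₃.1 c + 6) :=
          Finset.sum_le_sum hfib
      _ = 1344 * Wd V' j₁.1 j₂.1 j₃.1 + 672 * (Tr.lay V' j₂.1).card := by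
          rw [← Finset.mul_sum, Finset.sum_add_distrib, ← Finset.mul_sum, Finset.sum_const,
            smul_eq_mul, Wd]
          ring
      _ ≤ 1344 * Wd V' j₁.1 j₂.1 j₃.1 + 672 * m := by
          have := Nat.mul_le_mul_left 672 c2
          omega
  have hsum' : (F.card : ℝ) ≤ 1344 * (Wd V' j₁.1 j₂.1 j₃.1 : ℝ) + 672 * m := by exact_mod_cast hsum
  linarith

/-- The vertices given to the facets on one side. -/
theorem assign (hAssign : StmtAssignS) {κ : Type} {V : Finset (E × ℝ)} {u : κ → E} {s q : κ → ℝ}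
    {S : Finset κ} (cF : κ → E × ℝ)
    (hD : ∀ c, SD V (@Finset.filter κ (fun a => cF a = c) (Classical.decPred _) S) u s q)
    {σ : ℝ} (hσ : σ * σ = 1)
    (hcV : ∀ a ∈ S, cF a ∈ V)
    (h : ∀ a ∈ S, u a ≠ 0 ∧ Tr.val (u a) (s a) (cF a) = q a ∧
      ∃ z ∈ sd V σ (cF a), ∃ z' ∈ sd V σ (cF a), z ≠ z' ∧
        Tr.val (u a) (s a) z = q a ∧ Tr.val (u a) (s a) z' = q a) :
    ∃ x : κ → E × ℝ, (∀ a ∈ S, x a ∈ sd V σ (cF a) ∧ Tr.val (u a) (s a) (x a) = q a) ∧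
      ∀ (v w : E × ℝ) (F : Finset κ), (∀ a ∈ F, a ∈ S ∧ cF a = v ∧ x a = w) → F.card ≤ 56 := by
  classical
  have hA : ∀ c : E × ℝ, ∃ x : κ → E × ℝ, c ∈ V → (∀ a ∈ S, cF a = c →
      x a ∈ sd V σ c ∧ Tr.val (u a) (s a) (x a) = q a) ∧
      ∀ (w : E × ℝ) (F : Finset κ), (∀ a ∈ F, a ∈ S ∧ cF a = c ∧ x a = w) → F.card ≤ 56 := by
    intro c
    by_cases hc : c ∈ V
    · obtain ⟨x, h1, h2⟩ := hAssign κ V _ u s q (hD c) c σ hc hσ _ (Finset.Subset.refl _) (by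
          intro a ha
          obtain ⟨ha1, ha2⟩ := (@Finset.mem_filter κ _ (Classical.decPred _) S a).1 ha
          have h3 := h a ha1
          rw [ha2] at h3
          exact h3)
      refine ⟨x, fun _ => ⟨fun a ha hac => ?_, fun w F hF => ?_⟩⟩
      · exact h1 a ((@Finset.mem_filter κ _ (Classical.decPred _) S a).2 ⟨ha, hac⟩)
      · refine le_trans (Finset.card_le_card fun a ha => ?_) (h2 w)
        obtain ⟨k1, k2, k3⟩ := hF a ha
        exact (@Finset.mem_filter κ _ (Classical.decPred _) _ a).2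
          ⟨(@Finset.mem_filter κ _ (Classical.decPred _) S a).2 ⟨k1, k2⟩, k3⟩
    · exact ⟨fun _ => 0, fun hc' => absurd hc' hc⟩
  choose x hx using hA
  refine ⟨fun a => x (cF a) a, fun a ha => (hx _ (hcV a ha)).1 a ha rfl, fun v w F hF => ?_⟩
  rcases F.eq_empty_or_nonempty with h0 | ⟨a₀, ha₀⟩
  · rw [h0, Finset.card_empty]
    exact Nat.zero_le _
  have hv : v ∈ V := by
    obtain ⟨k1, k2, -⟩ := hF a₀ ha₀
    rw [← k2]
    exact hcV _ k1
  refine (hx v hv).2 w F fun a ha => ?_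
  obtain ⟨k1, k2, k3⟩ := hF a ha
  refine ⟨k1, k2, ?_⟩
  rw [← k2]
  exact k3

end MMainS

open Classical in
theorem t_MainS (hWd : KPH.StmtWd) (hAssign : StmtAssignS) (hPair : StmtPairS) : StmtMainS := by
  obtain ⟨K, hK⟩ := hWd
  refine ⟨1344 * Real.sqrt (27 * K) + 672, by positivity, ?_⟩
  intro ι κ V G u' s' q' D S g c y hinj hS hy56 m J cl hm0 hcl hm
  set u : κ → E := fun a => u' (g a) with hu
  set s : κ → ℝ := fun a => s' (g a) with hs
  set q : κ → ℝ := fun a => q' (g a) with hq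
  have hD : ∀ v, SD V (S.filter (fun a => c a = v)) u s q := by
    intro v
    refine D.reindex _ g (fun a ha => (hS a (Finset.mem_filter.1 ha).1).1) ?_
    intro a ha a' ha' h
    obtain ⟨h1, h2⟩ := Finset.mem_filter.1 ha
    obtain ⟨h1', h2'⟩ := Finset.mem_filter.1 ha'
    exact hinj a h1 a' h1' h (h2.trans h2'.symm)
  have hcV : ∀ a ∈ S, c a ∈ V := fun a ha => (hS a ha).2.2.1
  have hcZ : ∀ a ∈ S, Zr V (u a) (s a) (q a) (c a).2 = {c a} := fun a ha => (hS a ha).2.2.2.1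
  have hval : ∀ a ∈ S, Tr.val (u a) (s a) (c a) = q a := by
    intro a ha
    have h := hcZ a ha
    have h1 : c a ∈ Zr V (u a) (s a) (q a) (c a).2 := by
      rw [h]
      exact Finset.mem_singleton_self _
    exact (Tr.mem_zer.1 h1).2.2
  obtain ⟨x, hx, hx56⟩ := MMainS.assign hAssign (u := u) (s := s) (q := q) (V := V) (S := S) c
    (fun v => by convert hD v) (σ := -1) (by norm_num) hcV
    (fun a ha => ⟨(hS a ha).2.1, hval a ha, (hS a ha).2.2.2.2.1⟩)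
  have hyg : ∀ a ∈ S, y a ∈ sd V 1 (c a) ∧ Tr.val (u a) (s a) (y a) = q a :=
    fun a ha => (hS a ha).2.2.2.2.2
  have hsd : ∀ (σ : ℝ) (c v : E × ℝ), v ∈ sd V σ c → v ∈ V := by
    intro σ c v hv
    exact (Finset.mem_filter.1 hv).1
  have hm' : ∀ j : ℝ × ℕ, (V.filter (fun v => cl v = j)).card ≤ m := fun j =>
    hm j _ fun v hv => Finset.mem_filter.1 hv
  have hsum := MMain.card_fib S (J ×ˢ (J ×ˢ J))
    (fun a => (cl (x a), cl (c a), cl (y a)))
    (1344 * (Real.sqrt (27 * K) * (m : ℝ) ^ (3 / 2 : ℝ)) + 672 * m)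
    (by
      intro a ha
      have h1 := (hcl _ (hsd _ _ _ (hx a ha).1)).1
      have h2 := (hcl _ (hcV a ha)).1
      have h3 := (hcl _ (hsd _ _ _ (hyg a ha).1)).1
      exact Finset.mem_product.2 ⟨h1, Finset.mem_product.2 ⟨h2, h3⟩⟩)
    (by
      rintro ⟨j₁, j₂, j₃⟩ - F hF
      have h := MMainS.cell hPair c hD (fun _ => x) (fun _ => y) hcV hcZ hx hyg
        (fun v _ w => hx56 v w _ fun a ha => by
          obtain ⟨h1, h2⟩ := Finset.mem_filter.1 ha
          obtain ⟨h3, h4⟩ := Finset.mem_filter.1 h1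
          exact ⟨h3, h4, h2⟩)
        (fun v _ w => hy56 v w _ fun a ha => by
          obtain ⟨h1, h2⟩ := Finset.mem_filter.1 ha
          obtain ⟨h3, h4⟩ := Finset.mem_filter.1 h1
          exact ⟨h3, h4, h2⟩)
        (fun v hv => (hcl v hv).2) hm' j₁ j₂ j₃ K hK
      refine le_trans (Nat.cast_le.2 (Finset.card_le_card fun a ha => ?_)) h
      obtain ⟨h1, h2⟩ := hF a ha
      have h3 := congrArg Prod.fst h2
      have h4 := congrArg (fun z => z.2.1) h2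
      have h5 := congrArg (fun z => z.2.2) h2
      exact Finset.mem_filter.2 ⟨h1, h3, h4, h5⟩)
  rw [Finset.card_product, Finset.card_product] at hsum
  push_cast at hsum
  have hmr := MMain.le_rpow hm0
  have hJ : (0 : ℝ) ≤ (J.card : ℝ) := Nat.cast_nonneg _
  calc (S.card : ℝ) ≤ (J.card : ℝ) * ((J.card : ℝ) * (J.card : ℝ)) *
        (1344 * (Real.sqrt (27 * K) * (m : ℝ) ^ (3 / 2 : ℝ)) + 672 * m) := hsum
    _ ≤ (J.card : ℝ) * ((J.card : ℝ) * (J.card : ℝ)) *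
        (1344 * (Real.sqrt (27 * K) * (m : ℝ) ^ (3 / 2 : ℝ)) + 672 * (m : ℝ) ^ (3 / 2 : ℝ)) := by
        refine mul_le_mul_of_nonneg_left ?_ (by positivity)
        linarith
    _ = (1344 * Real.sqrt (27 * K) + 672) * (J.card : ℝ) ^ 3 * (m : ℝ) ^ (3 / 2 : ℝ) := by ring

end KAL
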