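import Pool.Agent.KAL.WTotal

/-!
# Pairs of the two highest vertices of the facets: the count
-/

set_option autoImplicit false

namespace KAL

open TPH KPH KPX

namespace MTopW

theorem exists_filter {κ : Type} (P : Finset κ) (R : κ → Prop) :
    ∃ F : Finset κ, ∀ p, p ∈ F ↔ p ∈ P ∧ R p := by
  classical
  exact ⟨P.filter R, fun p => Finset.mem_filter⟩

open MTotalX in
/-- The count of facets with their two highest vertices `c`, `y`. -/
theorem count (hEL : TPH.StmtEdgeLin) (hZero : StmtZeroS) (hMid : StmtMidS) {K₀ : ℝ}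
    (hCl : ∀ (κ : Type) (V : Finset (E × ℝ)) (G : Finset κ)
      (u : κ → E) (s q : κ → ℝ), SD V G u s q → ∀ T : Finset ℝ, (∀ v ∈ V, v.2 ∈ T) →
      ∀ (S : Finset κ) (c y : κ → E × ℝ),
      (∀ a ∈ S, a ∈ G ∧ u a ≠ 0 ∧ c a ∈ V ∧ Zr V (u a) (s a) (q a) (c a).2 = {c a} ∧
        (∃ z ∈ sd V (-1) (c a), ∃ z' ∈ sd V (-1) (c a), z ≠ z' ∧
          Tr.val (u a) (s a) z = q a ∧ Tr.val (u a) (s a) z' = q a) ∧
        y a ∈ sd V 1 (c a) ∧ Tr.val (u a) (s a) (y a) = q a) →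
      (∀ (v w : E × ℝ) (F : Finset κ), (∀ a ∈ F, a ∈ S ∧ c a = v ∧ y a = w) → F.card ≤ 56) →
      (S.card : ℝ) ≤ K₀ * (T.card : ℝ) ^ (3 / 2 : ℝ) * (V.card : ℝ) ^ (3 / 2 : ℝ))
    {κ : Type} {V : Finset (E × ℝ)} {P : Finset κ} {u : κ → E} {s q : κ → ℝ}
    (D : SD V P u s q) (c y : κ → E × ℝ) {ord : E × ℝ → ℝ}
    (hord : ∀ v ∈ V, ∀ v' ∈ V, v.2 < v'.2 → ord v < ord v')
    (hcy : ∀ p ∈ P, ∀ p' ∈ P, c p = c p' → y p = y p' → p = p')
    (hP : ∀ p ∈ P, c p ∈ V ∧ y p ∈ V ∧ ord (c p) < ord (y p) ∧ Tr.val (u p) (s p) (c p) = q p ∧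
      Tr.val (u p) (s p) (y p) = q p ∧
      ∀ v ∈ V, Tr.val (u p) (s p) v = q p → v ≠ c p → v ≠ y p → ord v < ord (c p))
    (T : Finset ℝ) (hT : ∀ v ∈ V, v.2 ∈ T) :
    (P.card : ℝ) ≤ T.card + 16 * V.card + 26 * ((T.card : ℝ) ^ 2 * V.card) +
      K₀ * ((T.card : ℝ) ^ (3 / 2 : ℝ) * (V.card : ℝ) ^ (3 / 2 : ℝ)) := by
  classical
  set x : ℝ → ℝ := fun t => ((Tr.lay V t).card : ℝ) with hx
  have hsum : ∑ t ∈ T, x t = (V.card : ℝ) := sum_lay hT
  have hx0 : ∀ t, 0 ≤ x t := fun t => Nat.cast_nonneg _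
  obtain ⟨G0, m0⟩ := exists_filter P (fun p => u p = 0)
  choose Ga ma using fun t : ℝ => exists_filter P (fun p => u p ≠ 0 ∧
    3 ≤ (Tr.zer V t (u p) (s p) (q p)).card)
  choose Ge me using fun t : ℝ => exists_filter P (fun p => (c p).2 = t ∧ (y p).2 = t ∧
    (Tr.zer V t (u p) (s p) (q p)).card = 2)
  choose Gb mb using fun t₁ t₂ t₃ : ℝ => exists_filter P (fun p => Btw t₁ t₂ t₃ ∧
    (Zr V (u p) (s p) (q p) t₂).card = 2 ∧ (Zr V (u p) (s p) (q p) t₁).Nonempty ∧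
    (Zr V (u p) (s p) (q p) t₃).Nonempty)
  obtain ⟨Gc, mc⟩ := exists_filter P (fun p => u p ≠ 0 ∧
    Zr V (u p) (s p) (q p) (c p).2 = {c p} ∧
    (∃ z ∈ sd V (-1) (c p), ∃ z' ∈ sd V (-1) (c p), z ≠ z' ∧
      Tr.val (u p) (s p) z = q p ∧ Tr.val (u p) (s p) z' = q p) ∧
    y p ∈ sd V 1 (c p))
  have hcover : P ⊆ (G0 ∪ (T.biUnion Ga) ∪ (T.biUnion Ge)) ∪
      (T.biUnion fun a => T.biUnion fun b => T.biUnion fun c => Gb a b c) ∪ Gc := by
    intro p hp
    obtain ⟨a1, a2, a3, c2, c3, c4⟩ := hP p hp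
    by_cases hu0 : u p = 0
    · exact Finset.mem_union_left _ (Finset.mem_union_left _ (Finset.mem_union_left _
        (Finset.mem_union_left _ ((m0 p).2 ⟨hp, hu0⟩))))
    by_cases h3 : ∃ t ∈ T, 3 ≤ (Tr.zer V t (u p) (s p) (q p)).card
    · obtain ⟨t, ht, h3⟩ := h3
      exact Finset.mem_union_left _ (Finset.mem_union_left _ (Finset.mem_union_left _
        (Finset.mem_union_right _ (Finset.mem_biUnion.2 ⟨t, ht, (ma t p).2 ⟨hp, hu0, h3⟩⟩))))
    · have h2 : ∀ t, (Tr.zer V t (u p) (s p) (q p)).card ≤ 2 := by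
        intro t
        by_cases ht : t ∈ T
        · by_contra hcon
          exact h3 ⟨t, ht, by omega⟩
        · have : Tr.zer V t (u p) (s p) (q p) = ∅ := by
            rw [Finset.eq_empty_iff_forall_notMem]
            intro v hv
            obtain ⟨hv1, hv2, -⟩ := Tr.mem_zer.1 hv
            exact ht (hv2 ▸ hT v hv1)
          rw [this, Finset.card_empty]
          exact Nat.zero_le _
      rcases MTopW.cases hord a1 a2 a3 c2 c3 c4 (D.four _ hp) h2 with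
        ⟨e1, e2⟩ | ⟨z, e0, e1, e2, e3, e4, e5⟩ | ⟨e1, e2, e3⟩
      · exact Finset.mem_union_left _ (Finset.mem_union_left _ (Finset.mem_union_right _
          (Finset.mem_biUnion.2 ⟨(c p).2, hT _ a1, (me _ p).2 ⟨hp, rfl, e1.symm, e2⟩⟩)))
      · refine Finset.mem_union_left _ (Finset.mem_union_right _ ?_)
        exact Finset.mem_biUnion.2 ⟨z.2, hT _ e0, Finset.mem_biUnion.2 ⟨(c p).2, hT _ a1,
          Finset.mem_biUnion.2 ⟨(y p).2, hT _ a2, (mb _ _ _ p).2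
            ⟨hp, Or.inl ⟨e1, e2⟩, e3, e4, e5⟩⟩⟩⟩
      · exact Finset.mem_union_right _ ((mc p).2 ⟨hp, hu0, e1, e2, e3⟩)
  -- the bounds
  have b0 : (G0.card : ℝ) ≤ T.card := by
    have := hZero κ V P u s q D T G0 hT (fun p hp => ((m0 p).1 hp).1)
      (fun p hp => ((m0 p).1 hp).2)
    exact_mod_cast this
  have ba : ((T.biUnion Ga).card : ℝ) ≤ 4 * V.card := by
    refine (card1 T Ga (fun t => 4 * x t) (fun t _ => ?_)).trans ?_
    · have := KAL.count_three D hEL (t := t) one_pos (Ga t)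
        (fun p hp => ((ma t p).1 hp).1) (fun p hp => ((ma t p).1 hp).2.1)
        (fun p hp => ((ma t p).1 hp).2.2)
      have h' : ((Ga t).card : ℝ) ≤ 4 * ((Tr.lay V t).card : ℝ) := by exact_mod_cast this
      exact h'
    · rw [← Finset.mul_sum, hsum]
  have be : ((T.biUnion Ge).card : ℝ) ≤ 12 * V.card := by
    refine (card1 T Ge (fun t => 12 * x t) (fun t _ => ?_)).trans ?_
    · have := MTopW.edges hEL (V := V) (u := u) (s := s) (q := q) (ord := ord) c y (Ge t) t D.exp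
        (fun p hp => D.nn p ((me t p).1 hp).1)
        (fun p hp p' hp' => hcy p ((me t p).1 hp).1 p' ((me t p').1 hp').1)
        (fun p hp => hP p ((me t p).1 hp).1)
        (fun p hp => ((me t p).1 hp).2)
      have h' : ((Ge t).card : ℝ) ≤ 12 * ((Tr.lay V t).card : ℝ) := by exact_mod_cast this
      exact h'
    · rw [← Finset.mul_sum, hsum]
  have bb : ((T.biUnion fun a => T.biUnion fun b => T.biUnion fun c => Gb a b c).card : ℝ) ≤
      26 * ((T.card : ℝ) ^ 2 * V.card) := by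
    refine (card1 T _ (fun a => ∑ b ∈ T, ∑ c ∈ T, (24 * x b + 2 * x a)) (fun a _ =>
      card1 T _ _ (fun b _ => card1 T _ _ (fun c _ => ?_)))).trans ?_
    · by_cases hB : Btw a b c
      · have := hMid κ V P u s q D a b c (Gb a b c) hB (fun p hp => ((mb _ _ _ p).1 hp).1)
          (fun p hp => ((mb _ _ _ p).1 hp).2.2)
        have h' : ((Gb a b c).card : ℝ) ≤ 24 * ((Tr.lay V b).card : ℝ) +
          2 * ((Tr.lay V a).card : ℝ) := by exact_mod_cast this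
        exact h'
      · have : Gb a b c = ∅ := by
          rw [Finset.eq_empty_iff_forall_notMem]
          intro g hg
          exact hB ((mb _ _ _ g).1 hg).2.1
        rw [this, Finset.card_empty, Nat.cast_zero]
        have := hx0 a
        have := hx0 b
        positivity
    · rw [sum3', hsum]
      exact le_of_eq (by ring)
  have bc : (Gc.card : ℝ) ≤ K₀ * ((T.card : ℝ) ^ (3 / 2 : ℝ) * (V.card : ℝ) ^ (3 / 2 : ℝ)) := by
    have h1 := hCl κ V P u s q D T hT Gc c y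
      (fun p hp => by
        obtain ⟨d0, d1, d2, d3, d4⟩ := (mc p).1 hp
        exact ⟨d0, d1, (hP p d0).1, d2, d3, d4, (hP p d0).2.2.2.2.1⟩)
      (fun v w F hF => by
        have h1 : F.card ≤ 1 := Finset.card_le_one.2 fun a ha b hb => by
          obtain ⟨e0, e1, e2⟩ := hF a ha
          obtain ⟨f0, f1, f2⟩ := hF b hb
          exact hcy a ((mc a).1 e0).1 b ((mc b).1 f0).1 (e1.trans f1.symm) (e2.trans f2.symm)
        omega)
    rw [mul_assoc] at h1
    exact h1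
  -- the sum
  have hc : (P.card : ℝ) ≤ G0.card + (T.biUnion Ga).card + (T.biUnion Ge).card +
      (T.biUnion fun a => T.biUnion fun b => T.biUnion fun c => Gb a b c).card + Gc.card := by
    have h1 := Finset.card_le_card hcover
    have h2 := Finset.card_union_le ((G0 ∪ (T.biUnion Ga) ∪ (T.biUnion Ge)) ∪
      (T.biUnion fun a => T.biUnion fun b => T.biUnion fun c => Gb a b c)) Gc
    have h3 := Finset.card_union_le (G0 ∪ (T.biUnion Ga) ∪ (T.biUnion Ge))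
      (T.biUnion fun a => T.biUnion fun b => T.biUnion fun c => Gb a b c)
    have h4 := Finset.card_union_le (G0 ∪ (T.biUnion Ga)) (T.biUnion Ge)
    have h5 := Finset.card_union_le G0 (T.biUnion Ga)
    have h6 : P.card ≤ G0.card + (T.biUnion Ga).card + (T.biUnion Ge).card +
      (T.biUnion fun a => T.biUnion fun b => T.biUnion fun c => Gb a b c).card + Gc.card := by
      omega
    exact_mod_cast h6
  linarith

end MTopW

open MTotalX in
theorem t_TopW (hEL : TPH.StmtEdgeLin) (hZero : StmtZeroS) (hMid : StmtMidS)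
    (hCl : StmtClassesS) : StmtTopW := by
  classical
  obtain ⟨K₀, hK₀, hCl'⟩ := hCl
  refine ⟨43 + K₀, by positivity, ?_⟩
  intro ι V G u₀ s₀ q₀ D₀ T₀ hT₀ ord hord P hP
  rcases P.eq_empty_or_nonempty with h0 | ⟨p₀, hp₀⟩
  · rw [h0, Finset.card_empty, Nat.cast_zero]
    positivity
  have hVne : V.Nonempty := ⟨p₀.1, (hP p₀ hp₀).1⟩
  -- the chosen facets
  obtain ⟨-, -, -, g₀, -⟩ := hP p₀ hp₀
  have hex : ∀ p : (E × ℝ) × (E × ℝ), ∃ g : ι, p ∈ P → g ∈ G ∧
      Tr.val (u₀ g) (s₀ g) p.1 = q₀ g ∧ Tr.val (u₀ g) (s₀ g) p.2 = q₀ g ∧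
      ∀ v ∈ V, Tr.val (u₀ g) (s₀ g) v = q₀ g → v ≠ p.1 → v ≠ p.2 → ord v < ord p.1 := by
    intro p
    by_cases hp : p ∈ P
    · obtain ⟨-, -, -, g, hg⟩ := hP p hp
      exact ⟨g, fun _ => hg⟩
    · exact ⟨g₀, fun h => absurd h hp⟩
  choose g hg using hex
  have hginj : ∀ p ∈ P, ∀ p' ∈ P, g p = g p' → p = p' := by
    intro p hp p' hp' he
    obtain ⟨a1, a2, a3, -⟩ := hP p hp
    obtain ⟨b1, b2, b3, -⟩ := hP p' hp'
    obtain ⟨-, c2, c3, c4⟩ := hg p hp
    obtain ⟨-, d2, d3, d4⟩ := hg p' hp'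
    rw [← he] at d2 d3 d4
    have := top_uniq (V := V) (ord := ord) (R := fun v => Tr.val (u₀ (g p)) (s₀ (g p)) v = q₀ (g p))
      (R' := fun v => Tr.val (u₀ (g p)) (s₀ (g p)) v = q₀ (g p)) a1 a2 b1 b2 a3 b3 c4 d4 c2 c3 d2 d3
    exact Prod.ext this.1 this.2
  have D : SD V P (fun p => u₀ (g p)) (fun p => s₀ (g p)) (fun p => q₀ (g p)) :=
    D₀.reindex P g (fun p hp => (hg p hp).1) hginj
  -- the heights
  obtain ⟨T, hTdef⟩ : ∃ T : Finset ℝ, T = V.image Prod.snd := ⟨_, rfl⟩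
  have hT : ∀ v ∈ V, v.2 ∈ T := fun v hv => by rw [hTdef]; exact Finset.mem_image_of_mem _ hv
  have hT1 : 0 < T.card := by rw [hTdef]; exact Finset.card_pos.2 (hVne.image _)
  have hTn : T.card ≤ V.card := by rw [hTdef]; exact Finset.card_image_le
  have hTT : T.card ≤ T₀.card := by rw [hTdef]; exact heights_le hT₀
  have hmain := MTopW.count hEL hZero hMid (K₀ := K₀)
    (fun κ V G u s q D T hT S c y h1 h2 => hCl' κ κ V G u s q D T hT S (fun a => a) c y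
      (fun a _ a' _ h _ => h) h1 h2) D
    (fun p => p.1) (fun p => p.2) hord (fun p _ p' _ h1 h2 => Prod.ext h1 h2)
    (fun p hp => ⟨(hP p hp).1, (hP p hp).2.1, (hP p hp).2.2.1, (hg p hp).2⟩) T hT
  clear hginj hg D hCl'
  have hn1' : 0 < V.card := lt_of_lt_of_le hT1 hTn
  have hn1 : (1 : ℝ) ≤ V.card := by exact_mod_cast hn1'
  have hk1 : (1 : ℝ) ≤ T.card := by exact_mod_cast hT1
  have hkn : (T.card : ℝ) ≤ V.card := by exact_mod_cast hTn
  have hTT' : (T.card : ℝ) ≤ T₀.card := by exact_mod_cast hTT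
  generalize (V.card : ℝ) = n at *
  generalize (T.card : ℝ) = k at *
  generalize (T₀.card : ℝ) = k₀ at *
  have hS1 : 1 ≤ √k := Real.one_le_sqrt.2 hk1
  have hR1 : 1 ≤ √n := Real.one_le_sqrt.2 hn1
  have hSR : √k ≤ √n := Real.sqrt_le_sqrt hkn
  have hss : √k * √k = k := Real.mul_self_sqrt (by linarith)
  have hk0 : 0 ≤ k := by linarith
  have hn0 : 0 ≤ n := by linarith
  obtain ⟨Q, hQ⟩ : ∃ Q : ℝ, Q = k ^ (3 / 2 : ℝ) * n ^ (3 / 2 : ℝ) := ⟨_, rfl⟩
  have hQ' : Q = (k * √k) * (n * √n) := by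
    rw [hQ, pow_eq (by linarith : 0 < k), pow_eq (by linarith : 0 < n)]
  have hkS : 1 ≤ k * √k := one_le_mul_of_one_le_of_one_le hk1 hS1
  have hnR : 1 ≤ n * √n := one_le_mul_of_one_le_of_one_le hn1 hR1
  have e0 : k ≤ Q := by
    rw [hQ']
    exact (le_mul_of_one_le_right hk0 hS1).trans (le_mul_of_one_le_right (by positivity) hnR)
  have e1 : n ≤ Q := by
    rw [hQ']
    exact (le_mul_of_one_le_right hn0 hR1).trans (le_mul_of_one_le_left (by positivity) hkS)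
  have e2 : k ^ 2 * n ≤ Q := by
    rw [hQ']
    calc k ^ 2 * n = (k * √k) * (n * √k) := by
          rw [show (k * √k) * (n * √k) = k * (√k * √k) * n by ring, hss]; ring
      _ ≤ (k * √k) * (n * √n) := by
          refine mul_le_mul_of_nonneg_left ?_ (by positivity)
          exact mul_le_mul_of_nonneg_left hSR hn0
  have h6 : k ^ (3 / 2 : ℝ) ≤ k₀ ^ (3 / 2 : ℝ) :=
    Real.rpow_le_rpow hk0 hTT' (by norm_num)
  have h7 : 0 ≤ n ^ (3 / 2 : ℝ) := Real.rpow_nonneg hn0 _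
  rw [← hQ] at hmain
  calc (P.card : ℝ) ≤ k + 16 * n + 26 * (k ^ 2 * n) + K₀ * Q := hmain
    _ ≤ (43 + K₀) * Q := by linarith
    _ = (43 + K₀) * (k ^ (3 / 2 : ℝ) * n ^ (3 / 2 : ℝ)) := by rw [hQ]
    _ ≤ (43 + K₀) * (k₀ ^ (3 / 2 : ℝ) * n ^ (3 / 2 : ℝ)) := by
        refine mul_le_mul_of_nonneg_left ?_ (by positivity)
        exact mul_le_mul_of_nonneg_right h6 h7
    _ = (43 + K₀) * k₀ ^ (3 / 2 : ℝ) * n ^ (3 / 2 : ℝ) := by ring

end KAL
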