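import Pool.Agent.KAL.WMain
import Pool.Agent.KPX.TotalX

/-!
# Pairs of the two highest vertices of the facets: the total count
-/

set_option autoImplicit false

namespace KAL

open TPH KPH KPX

/-- `StmtMainS` with the number of layers. -/
def StmtClassesS : Prop := ∃ K : ℝ, 0 < K ∧ ∀ (ι κ : Type) (V : Finset (E × ℝ)) (G : Finset ι)
  (u : ι → E) (s q : ι → ℝ), SD V G u s q → ∀ T : Finset ℝ, (∀ v ∈ V, v.2 ∈ T) →
  ∀ (S : Finset κ) (g : κ → ι) (c y : κ → E × ℝ),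
  (∀ a ∈ S, ∀ a' ∈ S, g a = g a' → c a = c a' → a = a') →
  (∀ a ∈ S, g a ∈ G ∧ u (g a) ≠ 0 ∧ c a ∈ V ∧
    Zr V (u (g a)) (s (g a)) (q (g a)) (c a).2 = {c a} ∧
    (∃ z ∈ sd V (-1) (c a), ∃ z' ∈ sd V (-1) (c a), z ≠ z' ∧
      Tr.val (u (g a)) (s (g a)) z = q (g a) ∧ Tr.val (u (g a)) (s (g a)) z' = q (g a)) ∧
    y a ∈ sd V 1 (c a) ∧ Tr.val (u (g a)) (s (g a)) (y a) = q (g a)) →
  (∀ (v w : E × ℝ) (F : Finset κ), (∀ a ∈ F, a ∈ S ∧ c a = v ∧ y a = w) → F.card ≤ 56) →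
  (S.card : ℝ) ≤ K * (T.card : ℝ) ^ (3 / 2 : ℝ) * (V.card : ℝ) ^ (3 / 2 : ℝ)

theorem heights_le {V : Finset (E × ℝ)} {T : Finset ℝ} (hT : ∀ v ∈ V, v.2 ∈ T) :
    (V.image Prod.snd).card ≤ T.card := by
  refine Finset.card_le_card ?_
  intro t ht
  obtain ⟨v, hv, rfl⟩ := Finset.mem_image.1 ht
  exact hT v hv

theorem t_ClassesS (hPart : StmtPart) (hMain : StmtMainS) : StmtClassesS := by
  classical
  obtain ⟨K₀, hK₀, hMain'⟩ := hMain
  refine ⟨32 * K₀, by positivity, ?_⟩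
  intro ι κ V G u s q D T hT S g c y hinj hS hy
  rcases S.eq_empty_or_nonempty with h0 | ⟨a₀, ha₀⟩
  · rw [h0, Finset.card_empty, Nat.cast_zero]
    positivity
  have hVne : V.Nonempty := ⟨c a₀, (hS a₀ ha₀).2.2.1⟩
  set T' : Finset ℝ := V.image Prod.snd with hT'
  have hT1 : 0 < T'.card := Finset.card_pos.2 (hVne.image _)
  have hTn : T'.card ≤ V.card := Finset.card_image_le
  have hTT : T'.card ≤ T.card := heights_le hT
  set m : ℕ := V.card / T'.card + 1 with hm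
  have hm0 : 0 < m := Nat.succ_pos _
  obtain ⟨J, cl, hcl, hfib, hJ⟩ := hPart V T' m (fun v hv => Finset.mem_image_of_mem _ hv) hm0
  have h1 := hMain' ι κ V G u s q D S g c y hinj hS hy m J cl hm0 hcl (fun j F hF => by
    refine le_trans (Finset.card_le_card fun v hv => ?_) (hfib j)
    exact (@Finset.mem_filter (E × ℝ) _ (Classical.decPred _) V v).2 (hF v hv))
  have hnm : V.card < m * T'.card := by
    have := Nat.lt_div_mul_add (a := V.card) hT1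
    rw [hm, add_mul, one_mul]
    exact this
  have hJ2 : J.card ≤ 2 * T'.card := by
    by_contra hc
    have h3 : m * (2 * T'.card) < m * J.card := Nat.mul_lt_mul_of_pos_left (by omega) hm0
    have h4 : m * (2 * T'.card) = m * T'.card + m * T'.card := by ring
    omega
  have hmk : m * T'.card ≤ 2 * V.card := by
    have := Nat.div_mul_le_self V.card T'.card
    rw [hm, add_mul, one_mul]
    omega
  have hJ2' : (J.card : ℝ) ≤ 2 * (T'.card : ℝ) := by exact_mod_cast hJ2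
  have hmk' : (m : ℝ) * (T'.card : ℝ) ≤ 2 * (V.card : ℝ) := by exact_mod_cast hmk
  have hm0' : (0 : ℝ) < m := by exact_mod_cast hm0
  have hk0 : (0 : ℝ) < T'.card := by exact_mod_cast hT1
  have hn0 : (0 : ℝ) < V.card := by exact_mod_cast (lt_of_lt_of_le hT1 hTn)
  have h2 := MTotalX.calc_main hk0 hn0 hm0' (Nat.cast_nonneg J.card) hJ2' hmk'
  have h5 := mul_le_mul_of_nonneg_left h2 hK₀.le
  have h6 : (T'.card : ℝ) ^ (3 / 2 : ℝ) ≤ (T.card : ℝ) ^ (3 / 2 : ℝ) :=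
    Real.rpow_le_rpow hk0.le (by exact_mod_cast hTT) (by norm_num)
  have h7 : 0 ≤ (V.card : ℝ) ^ (3 / 2 : ℝ) := Real.rpow_nonneg (Nat.cast_nonneg _) _
  calc (S.card : ℝ) ≤ K₀ * (J.card : ℝ) ^ 3 * (m : ℝ) ^ (3 / 2 : ℝ) := h1
    _ = K₀ * ((J.card : ℝ) ^ 3 * (m : ℝ) ^ (3 / 2 : ℝ)) := by ring
    _ ≤ K₀ * (32 * ((T'.card : ℝ) ^ (3 / 2 : ℝ) * (V.card : ℝ) ^ (3 / 2 : ℝ))) := h5
    _ = 32 * K₀ * ((T'.card : ℝ) ^ (3 / 2 : ℝ) * (V.card : ℝ) ^ (3 / 2 : ℝ)) := by ring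
    _ ≤ 32 * K₀ * ((T.card : ℝ) ^ (3 / 2 : ℝ) * (V.card : ℝ) ^ (3 / 2 : ℝ)) := by
        refine mul_le_mul_of_nonneg_left ?_ (by positivity)
        exact mul_le_mul_of_nonneg_right h6 h7
    _ = 32 * K₀ * (T.card : ℝ) ^ (3 / 2 : ℝ) * (V.card : ℝ) ^ (3 / 2 : ℝ) := by ring

/-- A facet with vertices at two heights is not parallel to the layers. -/
theorem ne_zero_of_two {V : Finset (E × ℝ)} {ι : Type} {G : Finset ι} {u : ι → E} {s q : ι → ℝ}
    (D : SD V G u s q) {g : ι} (hg : g ∈ G) {v w : E × ℝ} (hv : Tr.val (u g) (s g) v = q g)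
    (hw : Tr.val (u g) (s g) w = q g) (h : v.2 ≠ w.2) : u g ≠ 0 := by
  intro h0
  rw [Tr.val, h0, ip_zero_right] at hv hw
  have h1 : s g * (v.2 - w.2) = 0 := by linarith
  rcases mul_eq_zero.1 h1 with h2 | h2
  · exact D.nz g hg h0 h2
  · exact h (sub_eq_zero.1 h2)

theorem mem_sd {V : Finset (E × ℝ)} {σ : ℝ} {c x : E × ℝ} :
    x ∈ sd V σ c ↔ x ∈ V ∧ 0 < σ * (x.2 - c.2) := by
  classical
  simp [sd]

theorem t_PairsW (hAssign : StmtAssignS) (hCl : StmtClassesS) : StmtPairsW := by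
  classical
  obtain ⟨K, hK, hCl'⟩ := hCl
  refine ⟨K, hK, ?_⟩
  intro ι κ V G u s q D T hT S g c hinj hS
  have hval : ∀ a ∈ S, Tr.val (u (g a)) (s (g a)) (c a) = q (g a) := by
    intro a ha
    have h := (hS a ha).2.2.1
    have h1 : c a ∈ Zr V (u (g a)) (s (g a)) (q (g a)) (c a).2 := by
      rw [h]
      exact Finset.mem_singleton_self _
    exact (Tr.mem_zer.1 h1).2.2
  have hne : ∀ a ∈ S, u (g a) ≠ 0 := by
    intro a ha
    obtain ⟨z, hz, -, -, -, hz1, -⟩ := (hS a ha).2.2.2 1 (Or.inl rfl)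
    refine ne_zero_of_two D (hS a ha).1 (hval a ha) hz1 ?_
    intro h
    have := (mem_sd.1 hz).2
    rw [← h, sub_self, mul_zero] at this
    exact lt_irrefl _ this
  have hD : ∀ v, SD V (S.filter (fun a => c a = v)) (fun a => u (g a)) (fun a => s (g a))
      (fun a => q (g a)) := by
    intro v
    refine D.reindex _ g (fun a ha => (hS a (Finset.mem_filter.1 ha).1).1) ?_
    intro a ha a' ha' h
    obtain ⟨h1, h2⟩ := Finset.mem_filter.1 ha
    obtain ⟨h1', h2'⟩ := Finset.mem_filter.1 ha'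
    exact hinj a h1 a' h1' h (h2.trans h2'.symm)
  obtain ⟨y, hy, hy56⟩ := MMainS.assign hAssign (u := fun a => u (g a)) (s := fun a => s (g a))
    (q := fun a => q (g a)) (V := V) (S := S) c
    (fun v => by convert hD v) (σ := 1) (by norm_num) (fun a ha => (hS a ha).2.1)
    (fun a ha => ⟨hne a ha, hval a ha, (hS a ha).2.2.2 1 (Or.inl rfl)⟩)
  exact hCl' ι κ V G u s q D T hT S g c y hinj
    (fun a ha => ⟨(hS a ha).1, hne a ha, (hS a ha).2.1, (hS a ha).2.2.1,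
      (hS a ha).2.2.2 (-1) (Or.inr rfl), hy a ha⟩) hy56

/-- The pair of the two highest vertices is unique. -/
theorem top_uniq {V : Finset (E × ℝ)} {ord : E × ℝ → ℝ} {R R' : E × ℝ → Prop} {c y c' y' : E × ℝ}
    (hc : c ∈ V) (hy : y ∈ V) (hc' : c' ∈ V) (hy' : y' ∈ V) (h : ord c < ord y)
    (h' : ord c' < ord y')
    (hR : ∀ v ∈ V, R v → v ≠ c → v ≠ y → ord v < ord c)
    (hR' : ∀ v ∈ V, R' v → v ≠ c' → v ≠ y' → ord v < ord c')
    (k1 : R' c) (k2 : R' y) (k1' : R c') (k2' : R y') : c = c' ∧ y = y' := by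
  have hyy : y = y' := by
    by_contra hne
    have a1 : ord y < ord y' := by
      by_cases he : y = c'
      · rw [he]; exact h'
      · exact (hR' y hy k2 he hne).trans h'
    have a2 : ord y' < ord y := by
      by_cases he : y' = c
      · rw [he]; exact h
      · exact (hR y' hy' k2' he (Ne.symm hne)).trans h
    exact lt_asymm a1 a2
  refine ⟨?_, hyy⟩
  by_contra hne
  have e1 : c ≠ y := by rintro rfl; exact lt_irrefl _ h
  have e2 : c' ≠ y' := by rintro rfl; exact lt_irrefl _ h'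
  have a1 := hR' c hc k1 hne (by rw [← hyy]; exact e1)
  have a2 := hR c' hc' k1' (Ne.symm hne) (by rw [hyy]; exact e2)
  exact lt_asymm a1 a2

namespace MTopW

/-- The number of top pairs inside one layer which are edges. -/
theorem edges (hEL : TPH.StmtEdgeLin) {κ : Type} {V : Finset (E × ℝ)} {u : κ → E}
    {s q : κ → ℝ} {ord : E × ℝ → ℝ} (c y : κ → E × ℝ) (P : Finset κ) (t : ℝ)
    (hexp : ∀ v ∈ V, ∃ (u : E) (s : ℝ), ∀ v' ∈ V, v' ≠ v → Tr.val u s v' < Tr.val u s v)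
    (hnn : ∀ p ∈ P, ∀ v ∈ V, Tr.val (u p) (s p) v ≤ q p)
    (hcy : ∀ p ∈ P, ∀ p' ∈ P, c p = c p' → y p = y p' → p = p')
    (hP : ∀ p ∈ P, c p ∈ V ∧ y p ∈ V ∧ ord (c p) < ord (y p) ∧ Tr.val (u p) (s p) (c p) = q p ∧
      Tr.val (u p) (s p) (y p) = q p ∧
      ∀ v ∈ V, Tr.val (u p) (s p) v = q p → v ≠ c p → v ≠ y p → ord v < ord (c p))
    (ht : ∀ p ∈ P, (c p).2 = t ∧ (y p).2 = t ∧ (Tr.zer V t (u p) (s p) (q p)).card = 2) :
    P.card ≤ 12 * (Tr.lay V t).card := by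
  classical
  have hA := (hEL (Tr.img V t 1) (Tr.convPos_img one_pos hexp)).2.2
  rw [Tr.card_img one_pos] at hA
  refine le_trans ?_ hA
  have hz : ∀ p ∈ P, c p ∈ Tr.zer V t (u p) (s p) (q p) := fun p hp =>
    Tr.mem_zer.2 ⟨(hP p hp).1, (ht p hp).1, (hP p hp).2.2.2.1⟩
  have hz2 : ∀ p ∈ P, y p ∈ Tr.zer V t (u p) (s p) (q p) := fun p hp =>
    Tr.mem_zer.2 ⟨(hP p hp).2.1, (ht p hp).2.1, (hP p hp).2.2.2.2.1⟩
  refine Finset.card_le_card_of_injOn (fun p => Mx (Tr.img V t 1) (u p)) ?_ ?_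
  · intro p hp
    have hp' : p ∈ P := hp
    show Mx (Tr.img V t 1) (u p) ∈ (Ed (Tr.img V t 1) : Set (Finset E))
    rw [Finset.mem_coe, mem_Ed]
    refine ⟨?_, u p, rfl⟩
    rw [Tr.card_Mx one_pos (hnn p hp') ⟨_, hz p hp'⟩]
    exact (ht p hp').2.2
  · intro p hp p' hp' he
    have hpP : p ∈ P := hp
    have hpP' : p' ∈ P := hp'
    have he' : Mx (Tr.img V t 1) (u p) = Mx (Tr.img V t 1) (u p') := he
    have key : ∀ a ∈ P, ∀ b ∈ P, Mx (Tr.img V t 1) (u a) = Mx (Tr.img V t 1) (u b) →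
        ∀ v ∈ Tr.zer V t (u a) (s a) (q a), Tr.val (u b) (s b) v = q b := by
      intro a ha b hb hab v hv
      have hv' := Tr.mem_zer.1 hv
      have hl : v ∈ Tr.lay V t := Tr.mem_lay.2 ⟨hv'.1, hv'.2.1⟩
      have h1 := (Tr.mem_Mx_img one_pos (hnn a ha) ⟨_, hz a ha⟩ hl).2 hv'.2.2
      rw [hab] at h1
      exact (Tr.mem_Mx_img one_pos (hnn b hb) ⟨_, hz b hb⟩ hl).1 h1
    have h := hP p hpP
    have h' := hP p' hpP'
    have := top_uniq (V := V) (ord := ord) (R := fun v => Tr.val (u p) (s p) v = q p)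
      (R' := fun v => Tr.val (u p') (s p') v = q p') h.1 h.2.1 h'.1 h'.2.1 h.2.2.1 h'.2.2.1
      h.2.2.2.2.2 h'.2.2.2.2.2 (key p hpP p' hpP' he' _ (hz p hpP))
      (key p hpP p' hpP' he' _ (hz2 p hpP)) (key p' hpP' p hpP he'.symm _ (hz p' hpP'))
      (key p' hpP' p hpP he'.symm _ (hz2 p' hpP'))
    exact hcy p hpP p' hpP' this.1 this.2

/-- The cases. -/
theorem cases {V : Finset (E × ℝ)} {u : E} {s q : ℝ} {ord : E × ℝ → ℝ}
    (hord : ∀ v ∈ V, ∀ v' ∈ V, v.2 < v'.2 → ord v < ord v') {c y : E × ℝ} (hc : c ∈ V)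
    (hy : y ∈ V) (hcy : ord c < ord y) (vc : Tr.val u s c = q) (vy : Tr.val u s y = q)
    (hR : ∀ v ∈ V, Tr.val u s v = q → v ≠ c → v ≠ y → ord v < ord c)
    (hfour : ∃ Z : Finset (E × ℝ), 4 ≤ Z.card ∧ ∀ v ∈ Z, v ∈ V ∧ Tr.val u s v = q)
    (h2 : ∀ t, (Tr.zer V t u s q).card ≤ 2) :
    (c.2 = y.2 ∧ (Tr.zer V c.2 u s q).card = 2) ∨
    (∃ z ∈ V, z.2 < c.2 ∧ c.2 < y.2 ∧ (Tr.zer V c.2 u s q).card = 2 ∧
      (Tr.zer V z.2 u s q).Nonempty ∧ (Tr.zer V y.2 u s q).Nonempty) ∨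
    (Tr.zer V c.2 u s q = {c} ∧
      (∃ z ∈ sd V (-1) c, ∃ z' ∈ sd V (-1) c, z ≠ z' ∧ Tr.val u s z = q ∧ Tr.val u s z' = q) ∧
      y ∈ sd V 1 c) := by
  classical
  have hcney : c ≠ y := by rintro rfl; exact lt_irrefl _ hcy
  have hle : c.2 ≤ y.2 := by
    by_contra hcon
    push Not at hcon
    exact lt_asymm hcy (hord y hy c hc hcon)
  have hcz : c ∈ Tr.zer V c.2 u s q := Tr.mem_zer.2 ⟨hc, rfl, vc⟩
  rcases hle.eq_or_lt with he | hlt
  · left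
    refine ⟨he, le_antisymm (h2 _) ?_⟩
    exact Finset.one_lt_card.2 ⟨c, hcz, y, Tr.mem_zer.2 ⟨hy, he.symm, vy⟩, hcney⟩
  right
  -- two further vertices
  obtain ⟨Z, hZ, hZV⟩ := hfour
  have hZ2 : 2 ≤ ((Z.erase c).erase y).card := by
    have h1 := Finset.pred_card_le_card_erase (a := c) (s := Z)
    have h3 := Finset.pred_card_le_card_erase (a := y) (s := Z.erase c)
    omega
  obtain ⟨z, hz, z', hz', hzz⟩ := Finset.one_lt_card.1 (lt_of_lt_of_le one_lt_two hZ2)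
  have hmem : ∀ w ∈ (Z.erase c).erase y, w ∈ V ∧ Tr.val u s w = q ∧ w ≠ c ∧ w ≠ y ∧ w.2 ≤ c.2 := by
    intro w hw
    obtain ⟨h1, h3⟩ := Finset.mem_erase.1 hw
    obtain ⟨h4, h5⟩ := Finset.mem_erase.1 h3
    obtain ⟨h6, h7⟩ := hZV w h5
    refine ⟨h6, h7, h4, h1, ?_⟩
    by_contra hcon
    push Not at hcon
    exact lt_asymm (hR w h6 h7 h4 h1) (hord c hc w h6 hcon)
  obtain ⟨z1, z2, z3, z4, z5⟩ := hmem z hz
  obtain ⟨w1, w2, w3, w4, w5⟩ := hmem z' hz'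
  have hyn : (Tr.zer V y.2 u s q).Nonempty := ⟨y, Tr.mem_zer.2 ⟨hy, rfl, vy⟩⟩
  by_cases hcard : (Tr.zer V c.2 u s q).card = 2
  · left
    -- one of the two is strictly lower
    by_cases e1 : z.2 = c.2
    · have e2 : z'.2 < c.2 := by
        refine lt_of_le_of_ne w5 fun e2 => ?_
        have hsub : ({c, z, z'} : Finset (E × ℝ)) ⊆ Tr.zer V c.2 u s q := by
          intro v hv
          rw [Finset.mem_insert, Finset.mem_insert, Finset.mem_singleton] at hv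
          rcases hv with rfl | rfl | rfl
          · exact hcz
          · exact Tr.mem_zer.2 ⟨z1, e1, z2⟩
          · exact Tr.mem_zer.2 ⟨w1, e2, w2⟩
        have h3 := Finset.card_le_card hsub
        rw [Finset.card_eq_three.2 ⟨c, z, z', Ne.symm z3, Ne.symm w3, hzz, rfl⟩, hcard] at h3
        omega
      exact ⟨z', w1, e2, hlt, hcard, ⟨z', Tr.mem_zer.2 ⟨w1, rfl, w2⟩⟩, hyn⟩
    · exact ⟨z, z1, lt_of_le_of_ne z5 e1, hlt, hcard, ⟨z, Tr.mem_zer.2 ⟨z1, rfl, z2⟩⟩, hyn⟩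
  · right
    have hone : Tr.zer V c.2 u s q = {c} := by
      have h3 := h2 c.2
      have h4 : 0 < (Tr.zer V c.2 u s q).card := Finset.card_pos.2 ⟨c, hcz⟩
      obtain ⟨a, ha⟩ := Finset.card_eq_one.1 (by omega : (Tr.zer V c.2 u s q).card = 1)
      rw [ha] at hcz ⊢
      rw [Finset.mem_singleton.1 hcz]
    have hlow : ∀ w, w ∈ V → Tr.val u s w = q → w ≠ c → w.2 ≤ c.2 → w ∈ sd V (-1) c := by
      intro w hw1 hw2 hw3 hw5
      have h4 : w.2 < c.2 := by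
        refine lt_of_le_of_ne hw5 fun e => ?_
        have h5 : w ∈ Tr.zer V c.2 u s q := Tr.mem_zer.2 ⟨hw1, e, hw2⟩
        rw [hone] at h5
        exact hw3 (Finset.mem_singleton.1 h5)
      exact mem_sd.2 ⟨hw1, by linarith⟩
    exact ⟨hone, ⟨z, hlow z z1 z2 z3 z5, z', hlow z' w1 w2 w3 w5, hzz, z2, w2⟩,
      mem_sd.2 ⟨hy, by linarith⟩⟩

end MTopW

end KAL
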